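import Pool.Agent.P.MP_870b40_al.TP.Quat

/-! Every class of a group of symplectic type modulo its centre is encoded by one vector. -/

namespace Pool.Agent.P.MP_870b40_al.TP

open Subgroup MulAction
open scoped commutatorElement

universe u v w

variable {H : Type u} [Group H] {A : Type w} [CommGroup A] [MulDistribMulAction H A]
  {T : Type v} [Group T] [NAS T] {φ : H →* T} [Finite H] [Nontrivial A]

theorem enc2 {G : Type*} [Group G] [Finite G] [MulDistribMulAction G A] (ι : H →* G)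
    (hι : ∀ (h : H) (a : A), ι h • a = h • a) {R : Subgroup G} {z : G} {r : ℕ} (s : Sy A R z r)
    (hN : Nz ι.range R) {x : G} (hx : x ∈ R) (hr : x ^ r = 1) : ∃ (w : A) (n : ℕ),
      Full φ (stabilizer H w) → ∃ K, Full φ K ∧ ∀ k ∈ K, Commute (ι k) (x * z ^ n) := by
  obtain ⟨a, -, ha, h1 | ⟨n, h1⟩⟩ := exists_fixed (A := A) (U := ⊤) (mem_Cz.1 s.cen x hx) s.pr
    hr s.ord s.tor top_ne_bot (fun _ _ => mem_top _) (fun _ _ => mem_top _)
  · exact absurd (s.one ha (mem_zpowers z) h1) s.ne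
  have hx' := R.mul_mem hx (R.pow_mem s.mem n)
  obtain ⟨w, h2, h3⟩ := s.enc hx' ha h1
  refine ⟨w, n, fun hf => ?_⟩
  generalize x * z ^ n = y at *
  have hz : Nz ((stabilizer H w).map ι) (R ⊓ stabilizer G w) :=
    (hN.mono (map_le_range _ _)).inf (nz_of_le (by
      rintro _ ⟨h, hh, rfl⟩
      exact (hι h w).trans hh))
  rcases h3 with h3 | ⟨F, hF, h3⟩
  · rw [le_antisymm h3 (zpowers_le.2 ⟨hx', h2⟩)] at hz
    refine ⟨_, hf.comm hf, fun k hk => ?_⟩
    have h4 := comm_centralizes hz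
    rw [← map_commutator] at h4
    exact (mem_Cz.1 (h4 (mem_map_of_mem ι hk)) y (mem_zpowers y)).symm
  by_cases h0 : y = 1
  · exact ⟨_, hf, fun k _ => h0 ▸ Commute.one_right _⟩
  refine ⟨(Cz (zpowers y)).comap ι, hf.of_label F hF (fun k => ι k * y * (ι k)⁻¹)
    (fun k hk => h3 _ (hz _ (mem_map_of_mem ι hk) y ⟨hx', h2⟩) (by simpa using h0))
    fun k _ k' _ e => mem_comap.2 (mem_Cz.2 ?_), fun k hk =>
      (mem_Cz.1 (mem_comap.1 hk) y (mem_zpowers y)).symm⟩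
  rintro _ ⟨m, rfl⟩
  refine (Commute.zpow_left ?_ m).eq
  change y * _ = _ * y
  rw [map_mul, map_inv]
  calc y * ((ι k)⁻¹ * ι k') = (ι k)⁻¹ * (ι k * y * (ι k)⁻¹) * ι k' := by group
    _ = _ := by rw [show ι k * y * (ι k)⁻¹ = ι k' * y * (ι k')⁻¹ from e]; group

variable {R : Subgroup H} {z : H}

theorem Sy.scal [Finite A] [hR : R.Normal] (s : Sy A R z 2)
    (hf : ∀ h : H, (∀ a : A, h • a = a) → h = 1) (hZ : R ⊓ Cz R ≤ zpowers z) {b : ℤ}
    (hb : ∀ a : A, (a ^ b) ^ b = a⁻¹) {x : H} (hx : x ∈ R) (hxx : x * x = z) :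
    ∃ w : A, Full φ (stabilizer H w) → ∃ K, Full φ K ∧ K ≤ Cz (zpowers x) := by
  let ι := MulDistribMulAction.toMulAut H A
  have hι : Function.Injective ι := (injective_iff_map_eq_one ι).2 fun h e =>
    hf h fun a => DFunLike.congr_fun e a
  let σ : MulAut A :=
    { toFun := fun a => a ^ b
      invFun := fun a => (a ^ b)⁻¹
      left_inv := fun a => by simp only [hb, inv_inv]
      right_inv := fun a => by simp only [inv_zpow, hb, inv_inv]
      map_mul' := fun a a' => mul_zpow a a' b }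
  have c1 : ∀ g : MulAut A, Commute g σ := fun g => MulEquiv.ext fun a => map_zpow g a b
  have c2 : σ ^ 2 = ι z := MulEquiv.ext fun a => (hb a).trans (s.neg a).symm
  have c3 : ∀ g ∈ R.map ι ⊔ zpowers σ, ∃ y ∈ R, ∃ n : ℕ, g = ι y * σ ^ n := fun g hg => by
    obtain ⟨_, ⟨y, hy, rfl⟩, l, hl, rfl⟩ := (nz_of_le_Cz (zpowers_le.2
      (mem_Cz.2 fun k _ => (c1 k).eq))).mem_sup hg
    obtain ⟨n, rfl⟩ := mem_powers_iff_mem_zpowers.2 hl
    exact ⟨y, hy, n, rfl⟩
  have c4 : ∀ u ∈ zpowers z, ι u ∈ zpowers (ι z) := fun u hu =>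
    MonoidHom.map_zpowers ι z ▸ mem_map_of_mem ι hu
  have c5 : ι z ^ 2 = 1 := by rw [← map_pow, s.ord, map_one]
  have s' : Sy A (R.map ι ⊔ zpowers σ) (ι z) 2 := by
    refine ⟨s.pr, s.tor, mem_sup_left (mem_map_of_mem ι s.mem),
      mem_Cz.2 fun k _ => c2 ▸ ((c1 k).pow_right 2).eq, fun e => s.ne (hι (e.trans (map_one ι).symm)),
      c5, commutator_le.2 fun g hg g' hg' => ?_, fun g hg => ?_, fun a ha g hg hg' e => ?_⟩
    · obtain ⟨y, hy, n, rfl⟩ := c3 g hg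
      obtain ⟨y', hy', n', rfl⟩ := c3 g' hg'
      rw [commutatorElement_mul_left_eq_conj_mul, ((c1 _).symm.pow_left n).commutator_eq,
        commutatorElement_mul_right_eq_mul_conj, ((c1 _).pow_right n').commutator_eq]
      simpa [map_commutatorElement] using c4 _ (s.cm hy hy')
    · obtain ⟨y, hy, n, rfl⟩ := c3 g hg
      rw [((c1 _).pow_right n).mul_pow, ← pow_mul, mul_comm n, pow_mul, c2, ← map_pow]
      exact mul_mem (c4 _ (s.pow y hy)) (pow_mem (mem_zpowers _) n)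
    · obtain ⟨y, hy, n, rfl⟩ := c3 g hg
      have d1 : y ∈ zpowers z := hZ ⟨hy, mem_Cz.2 fun k hk => hι (by
        have d : Commute (ι k) (ι y * σ ^ n) := mem_Cz.1 hg' _ (mem_sup_left (mem_map_of_mem ι hk))
        have d' := (d.mul_right ((c1 _).pow_right n).inv_right).eq
        rwa [mul_inv_cancel_right, ← map_mul, ← map_mul] at d')⟩
      obtain ⟨m, rfl⟩ := s.gen (mem_zpowers z) s.ne d1
      have d2 : ι z • a ≠ a := fun e => s.ne (s.one ha (mem_zpowers z) e)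
      rw [map_pow, ← c2, ← pow_mul, ← pow_add] at e ⊢
      generalize 2 * m + n = N at *
      have d3 : σ ^ 4 = 1 := by rw [← c5, ← c2, ← pow_mul]
      rw [pow_eq_pow_mod N d3] at e ⊢
      have d4 : N % 4 < 4 := Nat.mod_lt _ (by norm_num)
      have d5 : (σ ^ (N % 4)) ^ 2 • a = a := pow_mem (show _ ∈ stabilizer _ a from e) 2
      generalize N % 4 = M at *
      interval_cases M
      · rfl
      · exact absurd (by rwa [pow_one, c2] at d5) d2
      · exact absurd (by rwa [c2] at e) d2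
      · exact absurd (by rwa [← pow_mul, show 3 * 2 = 4 + 2 from rfl, pow_add, d3, one_mul,
          c2] at d5) d2
  obtain ⟨w, n, h⟩ := enc2 (φ := φ) ι (fun _ _ => rfl) s' (x := ι x * σ) (by
      rintro _ ⟨h, rfl⟩ g hg
      obtain ⟨y, hy, n, rfl⟩ := c3 g hg
      rw [← mul_assoc, mul_assoc, ← ((c1 _).pow_right n).eq, ← mul_assoc, ← map_inv, ← map_mul,
        ← map_mul]
      exact mul_mem (mem_sup_left (mem_map_of_mem ι (hR.conj_mem y hy h)))
        (mem_sup_right (pow_mem (mem_zpowers σ) n)))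
    (mul_mem (mem_sup_left (mem_map_of_mem ι hx)) (mem_sup_right (mem_zpowers σ)))
    (by rw [(c1 _).mul_pow, c2, ← map_pow, pow_two, hxx, ← map_mul, s.zz, map_one])
  refine ⟨w, fun hw => (h hw).imp fun K hK => ⟨hK.1, fun k hk => mem_Cz.2 ?_⟩⟩
  rintro _ ⟨m, rfl⟩
  refine (Commute.zpow_left (hι ?_) m).eq
  have d := hK.2 k hk
  rw [← c2, ← pow_mul, mul_assoc, ← pow_succ'] at d
  have d' := (d.mul_right ((c1 _).pow_right (2 * n + 1)).inv_right).eq
  rw [mul_inv_cancel_right] at d'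
  rw [map_mul, map_mul, d']

theorem Sy.code [Finite A] [hR : R.Normal] {r : ℕ} (s : Sy A R z r) (hI : Irr H A)
    (hodd : r ≠ 2 → ∀ y ∈ R, y ^ r = 1) (hT : Full φ ⊤) {x : H} (hx : x ∈ R) :
    ∃ w : A, Full φ (stabilizer H w) →
      ∃ K, Full φ K ∧ ∀ k ∈ K, x⁻¹ * (k * x * k⁻¹) ∈ Cz R := by
  by_cases h1 : ∃ ζ ∈ R ⊓ Cz R, (x * ζ) ^ r = 1
  · obtain ⟨ζ, hζ, h1⟩ := h1
    obtain ⟨w, n, h⟩ := enc2 (φ := φ) (MonoidHom.id H) (fun _ _ => rfl) s (nz_normal _ R)
      (R.mul_mem hx hζ.1) h1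
    refine ⟨w, fun hw => (h hw).imp fun K hK => ⟨hK.1, fun k hk => ?_⟩⟩
    have h2 : ζ * z ^ n ∈ Cz R := mul_mem hζ.2 (pow_mem s.cen n)
    have h3 : k * (x * ζ * z ^ n) = x * ζ * z ^ n * k := hK.2 k hk
    have h4 := mul_mem h2 (inv_mem (nz_normal ⊤ (Cz R) k (mem_top k) _ h2))
    convert h4 using 1
    calc x⁻¹ * (k * x * k⁻¹) = x⁻¹ * (k * (x * ζ * z ^ n)) * (ζ * z ^ n)⁻¹ * k⁻¹ := by group
      _ = _ := by rw [h3]; group
  push Not at h1
  obtain rfl : r = 2 := by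
    by_contra h
    exact h1 1 (one_mem _) (hodd h _ (R.mul_mem hx R.one_mem))
  have hxx : x * x = z := (s.two (pow_two x ▸ s.pow x hx)).resolve_left fun e =>
    h1 1 (one_mem _) (by rw [mul_one, pow_two, e])
  have hZ : R ⊓ Cz R ≤ zpowers z := fun ζ hζ => by
    have h2 : ζ ^ 2 = 1 := (s.two (s.pow ζ hζ.1)).resolve_right fun e => h1 ζ hζ (by
      rw [(show Commute x ζ from mem_Cz.1 hζ.2 x hx).mul_pow, e, pow_two, hxx, s.zz])
    obtain ⟨a, -, ha, h3 | ⟨n, h3⟩⟩ := exists_fixed (A := A) (U := ⊤) (s.zc hζ.1) s.pr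
      h2 s.ord s.tor top_ne_bot (fun _ _ => mem_top _) (fun _ _ => mem_top _)
    · exact absurd (s.one ha (mem_zpowers z) h3) s.ne
    · rw [eq_inv_of_mul_eq_one_left (s.fpf a ha _ (R.mul_mem hζ.1 (R.pow_mem s.mem n))
        (mul_mem hζ.2 (pow_mem s.cen n)) h3)]
      exact inv_mem (pow_mem (mem_zpowers z) n)
  have fin : (∃ w : A, Full φ (stabilizer H w) → ∃ K, Full φ K ∧ K ≤ Cz (zpowers x)) →
      ∃ w : A, Full φ (stabilizer H w) →
        ∃ K, Full φ K ∧ ∀ k ∈ K, x⁻¹ * (k * x * k⁻¹) ∈ Cz R := fun h =>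
    h.imp fun w h hw => (h hw).imp fun K hK => ⟨hK.1, fun k hk => by
      rw [← mem_Cz.1 (hK.2 hk) x (mem_zpowers x)]
      simp⟩
  obtain ⟨p, hp, hpA⟩ : ∃ p : ℕ, p.Prime ∧ ∀ a : A, a ^ p = 1 := by
    obtain ⟨p, hp, h2⟩ := Nat.exists_prime_and_dvd (Finite.one_lt_card (α := A)).ne'
    have := Fact.mk hp
    obtain ⟨a, ha⟩ := exists_prime_orderOf_dvd_card' p h2
    rcases hI.irr (powMonoidHom p : A →* A).ker (fun h a e => by
      rw [MonoidHom.mem_ker, powMonoidHom_apply] at e ⊢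
      rw [← smul_pow', e, smul_one]) with h3 | h3
    · have h4 : a ∈ (powMonoidHom p : A →* A).ker := ha ▸ pow_orderOf_eq_one a
      rw [h3, mem_bot] at h4
      exact absurd (by rw [← ha, h4, orderOf_one]) hp.ne_one
    · exact ⟨p, hp, fun a => (h3 ▸ mem_top a : a ∈ (powMonoidHom p : A →* A).ker)⟩
  have := Fact.mk hp
  have hd : ∀ (n : ℤ) (a : A), (n : ZMod p) = 0 → a ^ n = 1 := fun n a e => by
    obtain ⟨k, rfl⟩ := (ZMod.intCast_zmod_eq_zero_iff_dvd n p).1 e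
    rw [zpow_mul, zpow_natCast, hpA, one_zpow]
  have hu : ∀ n : ℤ, (n : ZMod p) ≠ 0 → ∀ a : A, a ^ n = 1 → a = 1 := fun n e a ha => by
    by_contra h
    refine e ((ZMod.intCast_zmod_eq_zero_iff_dvd n p).2 ?_)
    rw [← orderOf_eq_prime (hpA a) h]
    exact orderOf_dvd_iff_zpow_eq_one.2 ha
  obtain ⟨b', c', hbc⟩ := ZMod.sq_add_sq p (-1)
  obtain ⟨b, rfl⟩ := ZMod.intCast_surjective b'
  obtain ⟨c, rfl⟩ := ZMod.intCast_surjective c'
  have sc : ∀ b : ℤ, (b : ZMod p) ^ 2 = -1 → ∀ a : A, (a ^ b) ^ b = a⁻¹ := fun b e a => by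
    rw [← zpow_mul, eq_inv_iff_mul_eq_one, ← zpow_add_one]
    exact hd _ a (by push_cast; linear_combination e)
  by_cases hb : (b : ZMod p) = 0
  · exact fin (s.scal hI.faith hZ (sc c (by rw [← hbc, hb]; ring)) hx hxx)
  by_cases hc : (c : ZMod p) = 0
  · exact fin (s.scal hI.faith hZ (sc b (by rw [← hbc, hc]; ring)) hx hxx)
  by_cases hj : ∃ j ∈ R, j * j = z ∧ ¬ Commute x j
  · obtain ⟨j, hj, hjj, hxj⟩ := hj
    exact fin (s.quat (hu b hb) (hu c hc) (fun a => hd _ a (by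
      push_cast; linear_combination hbc)) hx hj hxx hjj hxj)
  push Not at hj
  refine ⟨1, fun _ => ⟨⊤, hT, fun k _ => mem_Cz.2 fun y hy => ?_⟩⟩
  have hx' := hR.conj_mem x hx k
  have hxx' : k * x * k⁻¹ * (k * x * k⁻¹) = z := by rw [← s.hz hx hxx k, ← hxx]; group
  have key : ∀ a b : H, b ∈ R → b * b = z → (∀ j ∈ R, j * j = z → Commute a j) →
      Commute b y → Commute a y := fun a b hb hbb ha h3 => by
    rcases s.two (pow_two y ▸ s.pow y hy) with e1 | e1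
    · have e2 := (ha b hb hbb).inv_right.mul_right (ha _ (R.mul_mem hb hy) (by
        rw [h3.symm.mul_mul_mul_comm, hbb, e1, mul_one]))
      rwa [inv_mul_cancel_left] at e2
    · exact ha y hy e1
  have hj' : ∀ j ∈ R, j * j = z → Commute (k * x * k⁻¹) j := fun j h2 h3 => by
    have := (hj _ (hR.conj_mem j h2 k⁻¹) (by rw [← s.hz hx hxx k⁻¹, ← h3]; group)).conj k
    simpa [mul_assoc] using this
  by_cases h2 : Commute x y
  · exact (h2.inv_left.mul_left (key _ x hx hxx hj' h2)).symm.eq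
  · exact (s.anti (R.inv_mem hx) hx' hy (fun e => h2 (Commute.inv_left_iff.1 e))
      fun e => h2 (key x _ hx' hxx' hj e)).symm.eq

end Pool.Agent.P.MP_870b40_al.TP
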