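import Pool.Agent.P.MP_870b40_al.TP.Two
import Pool.Agent.P.MP_870b40_al.TP.Code

/-! The affine case with one vector. -/

namespace Pool.Agent.P.MP_870b40_al.TP

open Subgroup MulAction Pool.Agent.P.MP_870b40_al.CF
open scoped commutatorElement

universe u v w

variable {H : Type u} [Group H] {A : Type w} [CommGroup A] [MulDistribMulAction H A]
  {T : Type v} [Group T]

variable (A) in
/-- the desired conclusion -/
def Goal1 (φ : H →* T) : Prop := ∃ a : A, ¬ Full φ (stabilizer H a)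

variable (A) in
/-- reduction to proper invariant subgroups, for subgroups containing the residual -/
def Red3 (φ : H →* T) : Prop :=
  ∀ (U : Subgroup A) (L E : Subgroup H), Res φ E ⊤ → E ≤ L → U ≠ ⊤ →
    (∀ l ∈ L, ∀ a ∈ U, l • a ∈ U) → (∀ K, K ≤ L → Nz L K → Full φ K → ¬ U ≤ Fx A K) →
    ∃ a ∈ U, ¬ Full φ (L ⊓ stabilizer H a)

variable [NAS T] {φ : H →* T} {E R : Subgroup H}

theorem red4 (c : Ctx A φ E R) (hR : Red3 A φ) {Y : Subgroup H}
    (hex : ∃ a : A, a ≠ 1 ∧ Y ≤ stabilizer H a)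
    (key : ∀ a ∈ Fx A Y, a ≠ 1 → stabilizer H a ≤ normalizer (Y : Set H))
    (h0 : Y ≠ ⊥) (h1 : Nz E Y) (h2 : Nz R Y) : Goal1 A φ := by
  have := c.normal
  have hL : Nz (normalizer (Y : Set H)) Y := nz_iff.2 le_rfl
  have hEL := nz_iff.1 h1
  have hRL := nz_iff.1 h2
  obtain ⟨a, ha, h⟩ := hR (Fx A Y) (normalizer (Y : Set H)) E c.res hEL
    (fun h => h0 (c.eq_bot h)) (fun l hl a ha => hL.smul_mem_Fx hl ha) (by
      intro K hK hz hf hle
      obtain ⟨a, ha, haY⟩ := hex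
      exact ha (c.fix_normal c.ne_bot
        ((c.le_of_le (hz.mono hRL) (c.res.min K le_top hf (hz.mono hEL))).trans (hle haY))))
  refine ⟨a, fun hf => h ?_⟩
  by_cases ha1 : a = 1
  · subst ha1
    exact c.res.full.mono (le_inf hEL fun k _ => smul_one k)
  · exact hf.mono (le_inf (key a ha ha1) le_rfl)

theorem red5 (c : Ctx A φ E R) (hR : Red3 A φ) {B Y : Subgroup H} [B.Normal]
    (hY : MS A B Y) (h0 : Y ≠ ⊥) (h1 : Nz E Y) (h2 : Nz R Y) : Goal1 A φ :=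
  red4 c hR hY.ex (fun a ha ha1 => by
    rw [← nz_iff, ← hY.eq ha1 ha]
    exact (nz_normal _ _).inf (nz_self _)) h0 h1 h2

theorem case_central1 [Finite A] [Nontrivial A] (hI : Irr H A) (hE : Res φ E ⊤)
    (h : φ.ker ≤ Cz E) : Goal1 A φ := by
  have := hE.nz.normal
  obtain ⟨a, ha⟩ := exists_ne (0 : Additive A)
  obtain ⟨r, -, hu⟩ := exists_pure_one (ρ := Representation.ofMulDistribMulAction H A) E ha
  generalize r a = u at hu
  obtain ⟨l, hl, r, hr, h1, h2⟩ := hu.exists_ann fun e =>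
    hu.1 (hI.fix_normal hE.full.ne_bot (a := u.toMul) fun l hl => e l (hE.perfect hl))
  refine ⟨u.toMul, fun hf => h2 ?_⟩
  obtain ⟨g, hg, e⟩ := full_iff.1 hf (φ l)
  have h3 : l * g⁻¹ ∈ Cz E := h (by simp [MonoidHom.mem_ker, e])
  have h4 : Representation.ofMulDistribMulAction H A l u =
      Representation.ofMulDistribMulAction H A (l * g⁻¹) u := by
    change l • u.toMul = (l * g⁻¹) • u.toMul
    rw [mul_smul, show g⁻¹ • u.toMul = u.toMul from inv_mem hg]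
  rw [h4, Rg_comm (le_Cz_comm.1 (zpowers_le.2 h3)) hr (mem_Rg (mem_zpowers _)), h1, map_zero]

variable [Finite H]

theorem goal_of_pair1 {X : Type*} [MulAction H X] (hE : Res φ E ⊤) (hP : P2 φ ⊤) (Y : Set X)
    (hY : ∀ h : H, ∀ y ∈ Y, h • y ∈ Y) {y : X} (hy : y ∈ Y) {e : H} (he : e ∈ E) (hey : e • y ≠ y)
    (hp : ∀ a ∈ Y, ∀ b ∈ Y, a ≠ b → ∃ v : A, ∀ h : H, h • v = v → ∀ x, x = a ∨ x = b →
      h • x = a ∨ h • x = b) : Goal1 A φ := by
  classical
  obtain ⟨g, h⟩ := exists_two hE hP he hey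
  obtain ⟨b', hb', h1, h2⟩ : ∃ b' ∈ Y, y ≠ b' ∧ (g • y = y ∨ g • y = b') := by
    by_cases h : g • y = y
    · exact ⟨e • y, hY e y hy, hey.symm, Or.inl h⟩
    · exact ⟨_, hY g y hy, Ne.symm h, Or.inr rfl⟩
  obtain ⟨v, hv⟩ := hp y hy b' hb' h1
  have hc : ({y, b'} : Finset X).card ≤ 3 := Finset.card_le_two.trans (by norm_num)
  exact ⟨v, fun hf => h (((hf.inf_stab _ hc y fun w hw => by
    simpa using hv w hw y (Or.inl rfl)).inf_stab _ hc (g • y) fun w hw => by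
      simpa using hv w hw.1 _ h2).mono (inf_le_inf_right _ inf_le_right))⟩

/-- reduction to the case that normal subgroups of `R` have no fixed vectors -/
theorem kernel_red1 (c : Ctx A φ E R) (hP : P2 φ ⊤) (hR : Red3 A φ) {Y₀ : Subgroup H}
    (h1 : Y₀ ≤ R) (h2 : Nz R Y₀) (h0 : Y₀ ≠ ⊥) {a : A} (ha : a ≠ 1)
    (h3 : Y₀ ≤ stabilizer H a) : Goal1 A φ := by
  have := c.normal
  obtain ⟨Y, h4, hY⟩ := exists_MN h1 h2 ha h3
  by_cases hz : Nz E Y
  · refine red4 c hR hY.ex (fun a ha ha1 => nz_iff.1 (nz_of_smul fun g hg => ?_))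
      (fun e => h0 (le_bot_iff.1 (e ▸ h4))) hz hY.nz
    refine (hY.smul g).eq hY ha1 ?_ ha
    have h5 := (smul_mem_Fx (g := g)).2 ha
    rwa [show g • a = a from hg] at h5
  obtain ⟨e, he, hne⟩ : ∃ e ∈ E, e • Y ≠ Y := by
    by_contra h
    push Not at h
    exact hz (nz_of_smul h)
  refine goal_of_pair1 c.res hP {Y | MN A R Y} (fun h Y hY => MN.smul hY h) hY he hne
    fun Y₁ hY₁ Y₂ hY₂ hne => ?_
  obtain ⟨u, hu1, hu⟩ := MN.ex hY₁
  obtain ⟨u', hu1', hu'⟩ := MN.ex hY₂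
  refine ⟨u * u', fun g hg x hx => ?_⟩
  rcases hx with rfl | rfl
  · exact MN.half hY₁ hY₂ hne hu1 hu hu' hg
  · exact (MN.half hY₂ hY₁ hne.symm hu1' hu' hu (by rwa [mul_comm])).symm

variable [Finite A] [Nontrivial A]

theorem case_na3 (c : Ctx A φ E R) (hS : Sch2 φ) (hP : P2 φ ⊤) (hR : Red3 A φ)
    (hna : ¬ ⁅R, R⁆ ≤ R ⊓ Cz E) : Goal1 A φ := by
  have := c.normal
  have := c.res.nz.normal
  set Z := R ⊓ Cz E with hZ
  have hZR : Z ≤ R := inf_le_left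
  let π : H →* H ⧸ Z := QuotientGroup.mk' Z
  have hπ : Function.Surjective π := QuotientGroup.mk'_surjective Z
  have hker : π.ker = Z := QuotientGroup.ker_mk' Z
  let ψ : H ⧸ Z →* T := QuotientGroup.lift Z φ (hZR.trans c.ker)
  have hψ : ψ.comp π = φ := QuotientGroup.lift_comp_mk' _ _ _
  have hcm : (R.map π).comap π = R := by rw [comap_map_eq, hker, sup_eq_left.2 hZR]
  have hcomm : ∀ X Y : Subgroup H, X.map π ≤ Cz (Y.map π) ↔ ⁅X, Y⁆ ≤ Z := fun X Y => by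
    rw [← comm_eq_bot, ← map_commutator, Subgroup.map_eq_bot_iff, hker]
  have hM : MinNA (R.map π) := by
    refine ⟨c.normal.map π hπ, fun N hN hN1 => ?_, fun h => hna ((hcomm _ _).1 h)⟩
    have h1 : N.comap π ≤ R := (comap_mono hN).trans hcm.le
    rcases c.min _ h1 inferInstance with h | h
    · right; rw [← map_comap_eq_self_of_surjective hπ N, h]
    · left
      rw [← map_comap_eq_self_of_surjective hπ N, Subgroup.map_eq_bot_iff, hker]
      exact le_inf h1 h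
  have hC : ¬ Full ψ (Cz (R.map π)) := by
    intro h
    have := hM.normal
    rw [← map_comap_eq_self_of_surjective hπ (Cz (R.map π)), full_map, hψ] at h
    have h1 := c.res.min _ le_top h (nz_normal _ _)
    rw [← map_le_iff_le_comap, hcomm, commutator_comm, c.comm_eq] at h1
    exact c.ncz (h1.trans inf_le_right)
  have hSR : ∀ S, Comp (R.map π) S → S.comap π ≤ R := fun S hS =>
    (comap_mono hS.le).trans hcm.le
  have hRk : R.map π ≤ ψ.ker := by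
    rintro _ ⟨r, hr, rfl⟩
    exact c.ker hr
  have ht : (⊤ : Subgroup H).map π = ⊤ := map_top_of_surjective π hπ
  obtain ⟨D, hD⟩ := exists_res (φ := ψ) (L := ⊤)
    (((full_map π E).2 (hψ ▸ c.res.full)).mono le_top)
  have hED : E.map π = D := res_map π (hψ ▸ c.res) hD (ht ▸ le_top)
  have hRD : R.map π ≤ D := hED ▸ map_mono (c.comm_eq ▸ commutator_le_right R E)
  obtain ⟨S₀, hS₀, e, he, hne⟩ := moved hM (fun S hc => by
    have := hM.nas hc
    have := hM.normal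
    exact Sch2.push π hπ (hψ ▸ hS) D hD S _ hc.le hRD hc.nz (nz_normal _ _) (hc.le.trans hRk) S
      (MonoidHom.id S) Function.surjective_id) hRk hC hD
  obtain ⟨e, he', rfl⟩ : e ∈ E.map π := hED ▸ he
  have hSS : ∀ S, Comp (R.map π) S → ⁅S, S⁆ = S := fun S hc =>
    (hc.min _ (commutator_le_self S) (hc.nz.comm hc.nz)).resolve_left
      fun h => hM.not_le_Cz hc (comm_eq_bot.1 h)
  have hL : ∀ S, Comp (R.map π) S → (⁅S.comap π, S.comap π⁆).map π = S := fun S hc => by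
    rw [map_commutator, map_comap_eq_self_of_surjective hπ, hSS S hc]
  have hsm : ∀ (h : H) (S : Subgroup (H ⧸ Z)), h • S.comap π = (π h • S).comap π := fun h S => by
    ext x
    rw [mem_smul, mem_comap, mem_comap, mem_smul, map_mul, map_mul, map_inv]
  let F : Set (Subgroup H) := {L | ∃ S, Comp (R.map π) S ∧ ⁅S.comap π, S.comap π⁆ = L}
  have hF : ∀ h : H, ∀ L ∈ F, h • L ∈ F := by
    rintro h _ ⟨S, hc, rfl⟩
    exact ⟨π h • S, hM.comp_smul hc _, by rw [smul_comm', hsm]⟩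
  by_cases hx : ∀ L ∈ F, ∀ a : A, ⁅L, L⁆ ≤ stabilizer H a → a = 1
  swap
  · push Not at hx
    obtain ⟨_, ⟨S, hc, rfl⟩, a, h1, h2⟩ := hx
    have h3 : Nz R (S.comap π) := (nz_comap π hc.nz).mono hcm.ge
    refine kernel_red1 c hP hR ((commutator_le_self _).trans ((commutator_le_self _).trans
      (hSR S hc))) ((h3.comm h3).comm (h3.comm h3)) (fun h => hc.ne ?_) h2 h1
    rw [← hSS S hc, ← hL S hc, ← map_commutator, h, Subgroup.map_bot]
  refine goal_of_pair1 c.res hP F hF ⟨S₀, hS₀, rfl⟩ he' (fun h => hne ?_) fun L₁ h₁ L₂ h₂ h12 => ?_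
  · rw [smul_comm', hsm] at h
    rw [← hL _ (hM.comp_smul hS₀ (π e)), h, hL _ hS₀]
  obtain ⟨v, hv⟩ := exists_pair (ρ := Representation.ofMulDistribMulAction H A)
    (Set.toFinite F).toFinset (by
      simp only [Set.Finite.mem_toFinset]
      rintro _ ⟨S, hS, rfl⟩ _ ⟨S', hS', rfl⟩ hne
      have h1 : S ≠ S' := fun h => hne (by rw [h])
      have h2 : ⁅S.comap π, S'.comap π⁆ ≤ Cz (S.comap π) := by
        refine le_trans ?_ (c.z_le.trans (Cz_anti (hSR S hS)))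
        rw [← hcomm, map_comap_eq_self_of_surjective hπ, map_comap_eq_self_of_surjective hπ]
        exact hS.le_Cz hS' h1
      have h3 : ⁅⁅S.comap π, S.comap π⁆, S'.comap π⁆ = ⊥ :=
        commutator_commutator_eq_bot_of_rotate (comm_eq_bot.2 h2)
          (by rw [commutator_comm (S'.comap π)]; exact comm_eq_bot.2 h2)
      exact (comm_eq_bot.1 h3).trans (Cz_anti (commutator_le_self _)))
    (by simpa only [Set.Finite.mem_toFinset] using hF)
    (fun L hL' a ha => hx L (by simpa only [Set.Finite.mem_toFinset] using hL') a.toMul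
      fun l hl => ha l hl)
    ((Set.Finite.mem_toFinset _).2 h₁) ((Set.Finite.mem_toFinset _).2 h₂) h12
  exact ⟨v.toMul, fun h hh => hv h hh⟩

theorem case_ab3 (c : Ctx A φ E R) (hP : P2 φ ⊤) (hR : Red3 A φ) (hab : ⁅R, R⁆ = ⊥) :
    Goal1 A φ := by
  have := c.normal
  have hb : ⁅R, R⁆ ≤ R ⊓ Cz E := hab ▸ bot_le
  obtain ⟨r, hr, h1⟩ := c.exists_prime hb
  have h2 : ∀ x ∈ R, x ^ r = 1 := fun x hx => mem_bot.1 (hab ▸ h1 x hx)
  have hA := c.no_torsion hr fun x hx => by rw [h2 x hx, one_pow]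
  have hRR := comm_eq_bot.1 hab
  obtain ⟨Y, hY⟩ := exists_MS (A := A) R
  by_cases hz : Nz E Y
  · by_cases h0 : Y = ⊥
    · exfalso
      subst h0
      obtain ⟨z, hz1, hz2⟩ := (R.bot_or_exists_ne_one).resolve_left c.ne_bot
      have h3 := hY.le_zpowers hRR hr h2 hA hz1 hz2
      have h4 := comm_centralizes (K := E) (y := z) (h3 ▸ nz_normal E R)
      rw [← h3] at h4
      exact c.ncz (le_Cz_comm.1 (c.res.perfect.trans h4))
    · exact red5 c hR hY h0 hz (nz_of_le_Cz (hRR.trans (Cz_anti hY.le)))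
  · obtain ⟨w, hw⟩ := exists_vec_of_moved c.res hP.pp (nz_normal _ R) hRR hr h2 hA hY hz
    exact ⟨w, by simpa using hw⟩

theorem case_symp3 (c : Ctx A φ E R) (hS : Sch2 φ) (hIH : IH3.{u} (Nat.card H) T)
    (hR : Red3 A φ) (hb : ⁅R, R⁆ ≤ R ⊓ Cz E) (hab : ⁅R, R⁆ ≠ ⊥) : Goal1 A φ := by
  have := c.normal
  have := c.res.nz.normal
  obtain ⟨r, hr, h1⟩ := c.exists_prime hb
  have hZ : ⁅R ⊓ Cz E, R ⊓ Cz E⁆ ≤ ⊥ :=
    (comm_eq_bot.2 (c.z_le.trans (Cz_anti inf_le_left))).le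
  set Ω := powSub (R ⊓ Cz E) ⊥ hZ r with hΩ
  have hΩZ : Ω ≤ R ⊓ Cz E := fun _ h => h.1
  have hΩR : Ω ≤ R := hΩZ.trans inf_le_left
  have hΩC : Ω ≤ Cz R := hΩZ.trans c.z_le
  have hΩr : ∀ y ∈ Ω, y ^ r = 1 := fun y h => mem_bot.1 h.2
  have hR' : ⁅R, R⁆ ≤ Ω := commutator_le.2 fun x hx y hy =>
    ⟨hb (commutator_mem_commutator hx hy), mem_bot.2 (c.comm_pow hb h1 hx hy)⟩
  have hA := c.no_torsion hr fun x hx => hΩr _ (hR' (h1 x hx))
  obtain ⟨Y, hY⟩ := exists_MS (A := A) Ω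
  by_cases h0 : Y = ⊥
  swap
  · exact red5 c hR hY h0 (nz_of_le_Cz (le_Cz_comm.1 (hY.le.trans (hΩZ.trans inf_le_right))))
      (nz_of_le_Cz (le_Cz_comm.1 (hY.le.trans hΩC)))
  subst h0
  obtain ⟨z, hz, hz1⟩ := (Ω.bot_or_exists_ne_one).resolve_left fun h => hab (le_bot_iff.1 (h ▸ hR'))
  have hΩz := hY.le_zpowers (hΩC.trans (Cz_anti hΩR)) hr hΩr hA hz hz1
  have h4 : R ⊓ Cz R ≤ Cz E := by
    rcases c.min (R ⊓ Cz R) inf_le_left inferInstance with h | h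
    · exact absurd (comm_eq_bot.2 (inf_eq_left.1 h)) hab
    · exact h
  have s : Sy A R z r := ⟨hr, hA, hΩR hz, hΩC hz, hz1, hΩr z hz, hΩz ▸ hR',
    fun y hy => hΩz ▸ hR' (h1 y hy), fun a ha k hk hk' e => mem_bot.1 (hY.max a ha bot_le
      ⟨⟨⟨hk, h4 ⟨hk, hk'⟩⟩, hY.max a ha bot_le ⟨hR' (h1 k hk),
        pow_mem (show k ∈ stabilizer H a from e) r⟩⟩, e⟩)⟩
  have hodd : r ≠ 2 → ∀ y ∈ R, y ^ r = 1 := fun h2 => by
    obtain ⟨k, hk⟩ := hr.dvd_choose_self (k := 2) two_ne_zero (lt_of_le_of_ne hr.two_le h2.symm)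
    have hm : ∀ x ∈ R, ∀ y ∈ R, (x * y) ^ r = x ^ r * y ^ r := fun x hx y hy => by
      have h3 := hR' (commutator_mem_commutator hy hx)
      rw [mul_pow_class_two (Commute.symm (mem_Cz.1 (hΩC h3) _ hx))
        (Commute.symm (mem_Cz.1 (hΩC h3) _ hy)), hk, pow_mul, hΩr _ h3, one_pow, mul_one]
    let N : Subgroup H :=
      { carrier := {y | y ∈ R ∧ y ^ r = 1}
        one_mem' := ⟨R.one_mem, one_pow r⟩
        mul_mem' := fun {a b} ha hb => ⟨R.mul_mem ha.1 hb.1, by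
          rw [hm a ha.1 b hb.1, ha.2, hb.2, mul_one]⟩
        inv_mem' := fun {a} ha => ⟨R.inv_mem ha.1, by rw [inv_pow, ha.2, inv_one]⟩ }
    rcases c.min N (fun _ h => h.1) ⟨fun y hy g => ⟨c.normal.conj_mem y hy.1 g, by
      rw [conj_pow, hy.2, mul_one, mul_inv_cancel]⟩⟩ with h | h
    · exact fun y hy => (h.ge hy).2
    exfalso
    refine hab (comm_eq_bot.2 fun x hx => mem_Cz.2 fun y hy => ?_)
    by_cases h5 : x ^ r = 1
    · exact mem_Cz.1 (c.z_le ⟨hx, h ⟨hx, h5⟩⟩) y hy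
    obtain ⟨n, hn⟩ := s.gen (s.pow x hx) h5 (inv_mem (s.pow y hy))
    have h6 := R.mul_mem (R.pow_mem hx n) hy
    have h7 : Commute x (x ^ n * y) := mem_Cz.1 (c.z_le ⟨h6, h ⟨h6, by
      rw [hm _ (R.pow_mem hx n) y hy, ← pow_mul, mul_comm n, pow_mul, hn, inv_mul_cancel]⟩⟩) x hx
    have h8 := ((Commute.refl x).pow_right n).inv_right.mul_right h7
    rw [inv_mul_cancel_left] at h8
    exact h8.symm.eq
  set Z := R ⊓ Cz E
  have hZR : Z ≤ R := inf_le_left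
  let π : H →* H ⧸ Z := QuotientGroup.mk' Z
  have hπ : Function.Surjective π := QuotientGroup.mk'_surjective Z
  have hker : π.ker = Z := QuotientGroup.ker_mk' Z
  let ψ : H ⧸ Z →* T := QuotientGroup.lift Z φ (hZR.trans c.ker)
  have hψ : ψ.comp π = φ := QuotientGroup.lift_comp_mk' _ _ _
  have hcomm : ∀ X Y : Subgroup H, X.map π ≤ Cz (Y.map π) ↔ ⁅X, Y⁆ ≤ Z := fun X Y => by
    rw [← comm_eq_bot, ← map_commutator, Subgroup.map_eq_bot_iff, hker]
  have := c.normal.map π hπ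
  obtain ⟨_, ⟨x, hx, rfl⟩, h5⟩ := lin (ψ := ψ) (M := R.map π)
    (fun Γ _ _ χ h h' => hIH Γ χ h (h'.trans (Nat.card_le_card_of_surjective π hπ)))
    (Sch2.push π hπ (hψ ▸ hS)) ((hcomm _ _).2 hb) (by rintro _ ⟨r, hr, rfl⟩; exact c.ker hr) (by
      intro h
      rw [← map_comap_eq_self_of_surjective hπ (Cz (R.map π)), full_map, hψ] at h
      have h1 := c.res.min _ le_top h (nz_normal _ _)
      rw [← map_le_iff_le_comap, hcomm, commutator_comm, c.comm_eq] at h1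
      exact c.ncz (h1.trans inf_le_right))
  obtain ⟨w, hw⟩ := s.code c.toIrr hodd (c.res.full.mono le_top) hx
  refine ⟨w, fun hf => h5 ?_⟩
  obtain ⟨K, hK, h6⟩ := hw hf
  refine ((full_map π K).2 (hψ ▸ hK)).mono ?_
  rintro _ ⟨k, hk, rfl⟩
  have h7 := R.mul_mem (R.inv_mem hx) (c.normal.conj_mem x hx k)
  have h8 : π x = π (k * x * k⁻¹) := QuotientGroup.eq.2 ⟨h7, h4 ⟨h7, h6 k hk⟩⟩
  rw [map_mul, map_mul, map_inv, eq_mul_inv_iff_mul_eq] at h8
  rw [mem_Cz]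
  rintro _ ⟨n, rfl⟩
  exact (Commute.zpow_left h8 n).eq

/-- the affine case -/
theorem goal3 (hI : Irr H A) (hS : Sch2 φ) (hIH : IH3.{u} (Nat.card H) T) (hR : Red3 A φ) :
    Goal1 A φ := by
  have hP : P2 φ ⊤ := hIH H φ hS le_rfl
  by_cases hf : Full φ ⊤
  swap
  · exact ⟨1, fun h => hf (h.mono le_top)⟩
  obtain ⟨E, hE⟩ := exists_res hf
  by_cases h : φ.ker ≤ Cz E
  · exact case_central1 hI hE h
  obtain ⟨R, ⟨h1, h2, h3⟩, hmin⟩ :=
    wellFounded_lt.has_min {R : Subgroup H | R.Normal ∧ R ≤ φ.ker ∧ ¬ R ≤ Cz E}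
      ⟨φ.ker, inferInstance, le_rfl, h⟩
  have c : Ctx A φ E R := by
    refine ⟨hI, hE, h1, h2, h3, fun N hN hN1 => ?_⟩
    by_contra h4
    push Not at h4
    exact hmin N ⟨hN1, hN.trans h2, h4.2⟩ (lt_of_le_of_ne hN h4.1)
  by_cases hb : ⁅R, R⁆ ≤ R ⊓ Cz E
  · by_cases hab : ⁅R, R⁆ = ⊥
    · exact case_ab3 c hP hR hab
    · exact case_symp3 c hS hIH hR hb hab
  · exact case_na3 c hS hP hR hb

end Pool.Agent.P.MP_870b40_al.TP
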