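import Pool.Agent.P.MP_870b40_al.TP.Supp
import Pool.Agent.P.MP_870b40_al.CF.Flag

/-! Groups of symplectic type for the prime two: quaternion pairs. -/

namespace Pool.Agent.P.MP_870b40_al.TP

open Subgroup MulAction
open scoped commutatorElement

universe u v w

variable {H : Type u} [Group H] {A : Type w} [CommGroup A] [MulDistribMulAction H A]
  {R : Subgroup H} {z : H}

theorem Sy.zz (s : Sy A R z 2) : z * z = 1 := by rw [← pow_two]; exact s.ord

theorem Sy.two (s : Sy A R z 2) {u : H} (hu : u ∈ zpowers z) : u = 1 ∨ u = z := by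
  obtain ⟨n, rfl⟩ := s.gen (mem_zpowers z) s.ne hu
  rcases Nat.even_or_odd' n with ⟨k, rfl | rfl⟩
  · left; simp only [pow_mul, s.ord, one_pow]
  · right; simp only [pow_succ _ (2 * k), pow_mul, s.ord, one_pow, one_mul]

theorem Sy.zc (s : Sy A R z 2) {x : H} (hx : x ∈ R) : x * z = z * x := mem_Cz.1 s.cen x hx

theorem Sy.neg (s : Sy A R z 2) (a : A) : z • a = a⁻¹ := by
  by_contra h
  refine s.ne (s.one (a := z • a * a) (fun e => h (eq_inv_of_mul_eq_one_left e)) (mem_zpowers z) ?_)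
  rw [smul_mul', ← mul_smul, s.zz, one_smul, mul_comm]

theorem Sy.nc (s : Sy A R z 2) {x y : H} (hx : x ∈ R) (hy : y ∈ R) (h : ¬ Commute x y) :
    x * y = z * (y * x) := by
  rw [← (s.two (s.cm hx hy)).resolve_left fun e => h (commutatorElement_eq_one_iff_commute.1 e),
    commutatorElement_def]
  group

theorem Sy.anti (s : Sy A R z 2) {a b x : H} (ha : a ∈ R) (hb : b ∈ R) (hx : x ∈ R)
    (h1 : ¬ Commute a x) (h2 : ¬ Commute b x) : Commute (a * b) x := by
  change a * b * x = x * (a * b)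
  rw [mul_assoc, s.nc hb hx h2, ← mul_assoc, s.zc ha, mul_assoc, ← mul_assoc a, s.nc ha hx h1,
    ← mul_assoc, ← mul_assoc, s.zz, one_mul, mul_assoc]

theorem Sy.cj (s : Sy A R z 2) {t x : H} (ht : t ∈ R) (hx : x ∈ R) :
    t * x * t⁻¹ = x ∨ t * x * t⁻¹ = z * x := by
  by_cases h : Commute t x
  · left; rw [h.eq, mul_inv_cancel_right]
  · right; rw [s.nc ht hx h]; group

theorem Sy.sq (s : Sy A R z 2) {x y : H} (hx : x ∈ R) (hy : y ∈ R) (h : ¬ Commute x y) :
    x * y * (x * y) = z * (x * x) * (y * y) := by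
  calc x * y * (x * y) = x * (y * x) * y := by group
    _ = x * z * (x * y) * y := by rw [s.nc hy hx fun e => h e.symm]; group
    _ = _ := by rw [s.zc hx]; group

theorem Sy.dec (s : Sy A R z 2) {i j g : H} (hi : i ∈ R) (hj : j ∈ R) (hij : ¬ Commute i j)
    (hg : g ∈ R) : ∃ q, (q = 1 ∨ q = i ∨ q = j ∨ q = i * j) ∧ Commute (q⁻¹ * g) i ∧
      Commute (q⁻¹ * g) j := by
  have hji : ¬ Commute j i := fun e => hij e.symm
  have n1 : ¬ Commute i⁻¹ j := fun e => hij (Commute.inv_left_iff.1 e)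
  have n2 : ¬ Commute j⁻¹ i := fun e => hji (Commute.inv_left_iff.1 e)
  by_cases h1 : Commute g i <;> by_cases h2 : Commute g j
  · exact ⟨1, Or.inl rfl, by simpa using h1, by simpa using h2⟩
  · exact ⟨i, by simp, (Commute.refl i).inv_left.mul_left h1, s.anti (R.inv_mem hi) hg hj n1 h2⟩
  · exact ⟨j, by simp, s.anti (R.inv_mem hj) hg hi n2 h1, (Commute.refl j).inv_left.mul_left h2⟩
  · refine ⟨i * j, by simp, ?_, ?_⟩ <;> rw [mul_inv_rev, mul_assoc]
    · exact s.anti (R.inv_mem hj) (R.mul_mem (R.inv_mem hi) hg) hi n2 fun e =>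
        h1 (by simpa using (Commute.refl i).mul_left e)
    · exact (Commute.refl j).inv_left.mul_left (s.anti (R.inv_mem hi) hg hj n1 h2)

theorem Sy.hz [hR : R.Normal] (s : Sy A R z 2) {i : H} (hi : i ∈ R) (hii : i * i = z) (h : H) :
    h * z * h⁻¹ = z := by
  have h1 := s.pow _ (hR.conj_mem i hi h)
  rw [conj_pow, pow_two, hii] at h1
  exact (s.two h1).resolve_left fun e => s.ne (by simpa using e)

variable {T : Type v} [Group T] [NAS T] {φ : H →* T} [Finite H]

theorem cz_small {W D : Subgroup H} (hW : Full φ W) (hz : Nz W D) (F : Finset H)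
    (hF : F.card ≤ 3) (h : ∀ d ∈ D, d ≠ 1 → d ∈ F) : Full φ (W ⊓ Cz D) := by
  classical
  have key : ∀ P : Finset H, (∀ d ∈ P, d ∈ D) → Full φ (W ⊓ centralizer (P : Set H)) := by
    intro P
    induction P using Finset.induction_on with
    | empty => exact fun _ => hW.mono fun k hk => ⟨hk, fun y hy => by simp at hy⟩
    | insert d P _ ih =>
      intro hP
      have h1 := ih fun d' hd' => hP d' (Finset.mem_insert_of_mem hd')
      have hd := hP d (Finset.mem_insert_self _ _)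
      have h2 : ∀ k ∈ W ⊓ centralizer (P : Set H), k * d * k⁻¹ = d →
          k ∈ W ⊓ centralizer ((insert d P : Finset H) : Set H) := fun k hk e =>
        ⟨hk.1, fun y hy => by
          rcases Finset.mem_insert.1 hy with rfl | hy
          · exact (mul_inv_eq_iff_eq_mul.1 e).symm
          · exact hk.2 y hy⟩
      by_cases e : d = 1
      · exact h1.mono fun k hk => h2 k hk (by simp [e])
      · refine h1.of_label F hF (fun k => k * d * k⁻¹)
          (fun k hk => h _ (hz k hk.1 d hd) (by simpa using e)) fun k hk k' hk' h3 =>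
            h2 _ (mul_mem (inv_mem hk) hk') ?_
        calc k⁻¹ * k' * d * (k⁻¹ * k')⁻¹ = k⁻¹ * (k' * d * k'⁻¹) * k := by group
          _ = d := by rw [← show k * d * k⁻¹ = k' * d * k'⁻¹ from h3]; group
  simpa using key (Set.toFinite (D : Set H)).toFinset (by simp)

theorem Sy.fin [hR : R.Normal] (s : Sy A R z 2) {i j : H} (hii : i * i = z) (hjj : j * j = z)
    (hij : ¬ Commute i j) {W B G₀ : Subgroup H} (hW : Full φ W) (hG : G₀ ≤ R) (hi : i ∈ G₀)
    (hj : j ∈ G₀) (hBG : B ≤ G₀) (hBC : B ≤ Cz G₀) (hWB : W ≤ Cz B)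
    (han : ∀ g ∈ G₀, Commute g i → Commute g j → g * g = 1 → g ∈ B)
    (hc : ∀ h ∈ W, h * i * h⁻¹ ∈ G₀ ∧ h * j * h⁻¹ ∈ G₀) :
    ∃ K, Full φ K ∧ K ≤ Cz (zpowers i) := by
  classical
  have hk : i * j * (i * j) = z := by rw [s.sq (hG hi) (hG hj) hij, hii, hjj, s.zz, one_mul]
  have bc : ∀ β ∈ B, ∀ g ∈ G₀, Commute g β := fun β hβ g hg => mem_Cz.1 (hBC hβ) g hg
  have dich : ∀ g ∈ G₀, g * g = z → ¬ (Commute g i ∧ Commute g j) →
      ∃ q, (q = i ∨ q = j ∨ q = i * j) ∧ q⁻¹ * g ∈ B := by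
    intro g hg h1 h2
    obtain ⟨q, hq, h3, h4⟩ := s.dec (hG hi) (hG hj) hij (hG hg)
    replace hq := hq.resolve_left fun e => h2 (by simpa [e] using And.intro h3 h4)
    have h5 : q ∈ G₀ ∧ q * q = z ∧ Commute (q⁻¹ * g) q := by
      rcases hq with rfl | rfl | rfl
      exacts [⟨hi, hii, h3⟩, ⟨hj, hjj, h4⟩, ⟨G₀.mul_mem hi hj, hk, h3.mul_right h4⟩]
    refine ⟨q, hq, han _ (G₀.mul_mem (G₀.inv_mem h5.1) hg) h3 h4 (mul_left_cancel (a := z) ?_)⟩
    calc z * (q⁻¹ * g * (q⁻¹ * g)) = q * (q * (q⁻¹ * g)) * (q⁻¹ * g) := by rw [← h5.2.1]; group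
      _ = z * 1 := by rw [← h5.2.2.eq, mul_one, ← h1]; group
  have same : ∀ g ∈ G₀, ∀ g' ∈ G₀, g' * g' = z → ¬ Commute g g' → Commute g i ∧ Commute g j →
      Commute g' i ∧ Commute g' j := by
    intro g hg g' hg' h1 h2 h3
    by_contra h4
    obtain ⟨q, hq, h5⟩ := dich g' hg' h1 h4
    have h6 : Commute g q := by
      rcases hq with rfl | rfl | rfl
      exacts [h3.1, h3.2, h3.1.mul_right h3.2]
    exact h2 (by simpa using h6.mul_right (bc _ h5 g hg))
  have cc : ∀ h a b : H, Commute (h * a * h⁻¹) (h * b * h⁻¹) ↔ Commute a b := fun h a b =>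
    ⟨fun e => by simpa [mul_assoc] using e.conj h⁻¹, fun e => e.conj h⟩
  have sq : ∀ h a : H, a * a = z → h * a * h⁻¹ * (h * a * h⁻¹) = z := fun h a e => by
    rw [← s.hz (hG hi) hii h, ← e]; group
  have nz : Nz W B := nz_of_le_Cz hWB
  let W₀ : Subgroup H :=
    { carrier := {k | k ∈ W ∧ ¬ (Commute (k * i * k⁻¹) i ∧ Commute (k * i * k⁻¹) j)}
      one_mem' := ⟨W.one_mem, fun e => hij (by simpa using e.2)⟩
      mul_mem' := by
        rintro a b ⟨ha, h1⟩ ⟨hb, h2⟩
        refine ⟨W.mul_mem ha hb, fun h3 => h1 ?_⟩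
        obtain ⟨q, hq, h4⟩ := dich _ (hc b hb).1 (sq b i hii) h2
        have h5 := nz a ha _ h4
        have e : a * q * a⁻¹ = a * b * i * (a * b)⁻¹ * (a * (q⁻¹ * (b * i * b⁻¹)) * a⁻¹)⁻¹ := by
          have := (bc _ h4 _ (hc b hb).1).inv_right.eq
          calc a * q * a⁻¹ = a * ((q⁻¹ * (b * i * b⁻¹))⁻¹ * (q⁻¹ * (b * i * b⁻¹)) * q) * a⁻¹ := by
                group
            _ = _ := by
              have h6 : q ∈ G₀ := by
                rcases hq with rfl | rfl | rfl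
                exacts [hi, hj, G₀.mul_mem hi hj]
              rw [mul_assoc _ _ q, ← (bc _ h4 q h6).eq, mul_inv_cancel_left, ← this]
              group
        have h6 : Commute (a * q * a⁻¹) i ∧ Commute (a * q * a⁻¹) j := by
          rw [e]
          exact ⟨h3.1.mul_left (bc _ h5 i hi).symm.inv_left,
            h3.2.mul_left (bc _ h5 j hj).symm.inv_left⟩
        rcases hq with rfl | rfl | rfl
        · exact h6
        · exact same _ (hc a ha).2 _ (hc a ha).1 (sq a i hii)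
            (fun e => hij ((cc _ _ _).1 e).symm) h6
        · exact same _ (by simpa [mul_assoc] using G₀.mul_mem (hc a ha).1 (hc a ha).2) _
            (hc a ha).1 (sq a i hii) (fun e => hij (by
              simpa using ((Commute.refl i).inv_left.mul_left ((cc _ _ _).1 e)).symm)) h6
      inv_mem' := by
        rintro a ⟨ha, h1⟩
        refine ⟨W.inv_mem ha, fun h2 => h1 ?_⟩
        have h3 := same _ (hc _ (W.inv_mem ha)).1 _ (hc _ (W.inv_mem ha)).2 (sq _ j hjj)
          (fun e => hij ((cc _ _ _).1 e)) h2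
        exact ⟨by simpa [mul_assoc] using (h2.1.conj a).symm,
          by simpa [mul_assoc] using (h3.1.conj a).symm⟩ }
  have h0 : Full φ W₀ := by
    refine hW.of_label (Finset.univ : Finset Bool) (by simp)
      (fun k => decide (Commute (k * i * k⁻¹) i ∧ Commute (k * i * k⁻¹) j))
      (fun _ _ => Finset.mem_univ _) fun k hk k' hk' e => ?_
    rw [decide_eq_decide] at e
    by_cases h1 : Commute (k * i * k⁻¹) i ∧ Commute (k * i * k⁻¹) j
    swap
    · exact W₀.mul_mem (W₀.inv_mem ⟨hk, h1⟩) ⟨hk', fun h => h1 (e.2 h)⟩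
    refine ⟨W.mul_mem (W.inv_mem hk) hk', fun h2 => hij ((cc k _ _).1 ?_)⟩
    have h3 : Commute (k' * i * k'⁻¹) (k * i * k⁻¹) := by simpa [mul_assoc] using h2.1.conj k
    have h4 : Commute (k' * i * k'⁻¹) (k * j * k⁻¹) := by simpa [mul_assoc] using h2.2.conj k
    have h5 := han _ (G₀.mul_mem (hc k hk).1 (hc k' hk').1) (h1.1.mul_left (e.1 h1).1)
      (h1.2.mul_left (e.1 h1).2) (by
        rw [h3.mul_mul_mul_comm, sq k i hii, sq k' i hii, s.zz])
    have h6 := (bc _ h5 _ (hc k hk).2).symm.mul_left h4.inv_left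
    rwa [mul_inv_cancel_right] at h6
  have nz0 : Nz W₀ B := nz.mono fun k hk => hk.1
  have h1 : Full φ (kst W₀ B nz0 i) := by
    refine h0.of_label ({(i : H ⧸ B), (j : H ⧸ B), ((i * j : H) : H ⧸ B)} : Finset (H ⧸ B))
      Finset.card_le_three (fun k => ((k * i * k⁻¹ : H) : H ⧸ B)) (fun k hk => ?_)
      fun k hk k' hk' h3 => ⟨W₀.mul_mem (W₀.inv_mem hk) hk', ?_⟩
    · obtain ⟨q, hq, h4⟩ := dich _ (hc k hk.1).1 (sq k i hii) hk.2
      rw [← QuotientGroup.eq.2 h4]
      rcases hq with rfl | rfl | rfl <;> simp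
    · have h4 := nz0 _ (W₀.inv_mem hk) _ (QuotientGroup.eq.1 h3)
      convert h4 using 1
      group
  obtain ⟨K, hK⟩ := exists_res h1
  have hKW : K ≤ W := fun k hk => (hK.le hk).1.1
  have hP : B ⊔ zpowers i ≤ G₀ := sup_le hBG (zpowers_le.2 hi)
  refine ⟨K, hK.full, (CF.cz_step (P := B ⊔ zpowers i) hK.perfect (sup_le (hBC.trans (Cz_anti hP))
    (zpowers_le.2 (le_Cz_comm.1 (sup_le (hBC.trans (Cz_anti (zpowers_le.2 hi))) ?_)
      (mem_zpowers i)))) rfl (fun k hk a ha => ?_) (hKW.trans hWB)).trans (Cz_anti le_sup_right)⟩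
  · rintro _ ⟨n, rfl⟩
    rw [mem_Cz]
    rintro _ ⟨m, rfl⟩
    exact zpow_mul_comm i m n
  · have h2 : B ⊔ zpowers i ≤ k⁻¹ • (B ⊔ zpowers i) := sup_le
      (fun β hβ => mem_smul.2 (mem_sup_left (by simpa using nz k (hKW hk) β hβ)))
      (zpowers_le.2 (mem_smul.2 (by
        simpa using mul_mem (mem_sup_right (mem_zpowers i))
          (mem_sup_left (hK.le hk).2 : _ ∈ B ⊔ zpowers i))))
    simpa using mem_smul.1 (h2 ha)

end Pool.Agent.P.MP_870b40_al.TP
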