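import Pool.Agent.P.MP_870b40_al.TP.Fin

/-! A vector that encodes a quaternion subgroup. -/

namespace Pool.Agent.P.MP_870b40_al.TP

open Subgroup MulAction
open scoped commutatorElement

universe u v w

variable {H : Type u} [Group H] {A : Type w} [CommGroup A] [MulDistribMulAction H A]
  {R : Subgroup H} {z : H}

/-- the three-term relation -/
def Rel (b c : ℤ) (a : A) (x y : H) : Prop := a * (x • a) ^ b * (y • a) ^ c = 1

theorem Rel.smul {b c : ℤ} {a : A} {x y : H} (h : Rel b c a x y) (g : H) :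
    Rel b c (g • a) (g * x * g⁻¹) (g * y * g⁻¹) := by
  have := congrArg (g • ·) h
  simpa [Rel, smul_mul', smul_zpow', mul_smul] using this

theorem Sy.rigid (s : Sy A R z 2) {b c : ℤ} (hb : ∀ a : A, a ^ b = 1 → a = 1)
    (hc : ∀ a : A, a ^ c = 1 → a = 1) {a : A} (ha : a ≠ 1) {x y t : H} (hx : x ∈ R) (hy : y ∈ R)
    (ht : t ∈ R) (h : Rel b c a x y) (h' : Rel b c a (t * x * t⁻¹) (t * y * t⁻¹)) :
    Commute t x ∧ Commute t y := by
  have k : ∀ u v w : A, u * v * w = 1 → u * v⁻¹ * w = 1 → v = 1 := fun u v w e e' => by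
    have := mul_left_cancel (mul_right_cancel (e.trans e'.symm))
    exact s.tor v (by rw [pow_two]; nth_rw 1 [this]; exact inv_mul_cancel v)
  unfold Rel at h h'
  rcases s.cj ht hx with e | e <;> rcases s.cj ht hy with e' | e' <;> rw [e, e'] at h'
  · exact ⟨mul_inv_eq_iff_eq_mul.1 e, mul_inv_eq_iff_eq_mul.1 e'⟩
  · rw [mul_smul, s.neg, inv_zpow, mul_right_comm] at h'
    rw [mul_right_comm] at h
    exact absurd (hc _ (k _ _ _ h h')) (smul_ne_one ha)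
  · rw [mul_smul, s.neg, inv_zpow] at h'
    exact absurd (hb _ (k _ _ _ h h')) (smul_ne_one ha)
  · rw [mul_smul, mul_smul, s.neg, s.neg, inv_zpow, inv_zpow, mul_assoc, ← mul_inv,
      mul_inv_eq_one] at h'
    rw [mul_assoc, ← h', ← pow_two] at h
    exact absurd (s.tor a h) ha

theorem Sy.exists_rel (s : Sy A R z 2) {b c : ℤ} (hb : ∀ a : A, a ^ b = 1 → a = 1)
    (hc : ∀ a : A, a ^ c = 1 → a = 1) (hbc : ∀ a : A, a ^ (1 + b ^ 2 + c ^ 2) = 1) {i j : H}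
    (hi : i ∈ R) (hj : j ∈ R) (hii : i * i = z) (hjj : j * j = z) (hij : ¬ Commute i j)
    {U : Subgroup A} (h1 : ∀ a ∈ U, i • a ∈ U) (h2 : ∀ a ∈ U, j • a ∈ U) {v : A} (hv : v ∈ U)
    (hv1 : v ≠ 1) : ∃ b c : ℤ, (∀ a : A, a ^ b = 1 → a = 1) ∧ (∀ a : A, a ^ c = 1 → a = 1) ∧
      ∃ a ∈ U, a ≠ 1 ∧ Rel b c a i j := by
  by_cases h : Rel (-b) (-c) v i j
  · exact ⟨-b, -c, fun a e => hb a (by simpa using e), fun a e => hc a (by simpa using e), v, hv,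
      hv1, h⟩
  refine ⟨b, c, hb, hc, _, U.mul_mem (U.mul_mem hv (U.zpow_mem (h1 v hv) _))
    (U.zpow_mem (h2 v hv) _), h, ?_⟩
  have e1 : i • i • v = v⁻¹ := by rw [← mul_smul, hii, s.neg]
  have e2 : j • j • v = v⁻¹ := by rw [← mul_smul, hjj, s.neg]
  have e3 : j • i • v = (i • j • v)⁻¹ := by
    rw [← mul_smul, s.nc hj hi fun e => hij e.symm, mul_smul, s.neg, mul_smul]
  rw [Rel, ← hbc v]
  simp only [smul_mul', smul_zpow', e1, e2, e3]
  apply Additive.ofMul.injective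
  simp only [ofMul_mul, ofMul_zpow, ofMul_inv]
  module

variable [Finite H] {C : Subgroup H} {w₀ : A}

theorem Sy.sidon (s : Sy A R z 2) (hC : C ≤ R) (h0 : w₀ ≠ 1) (hw : C ≤ stabilizer H w₀)
    {S : Finset (Subgroup H)} {t : Subgroup H → H} (ht : ∀ Y ∈ S, t Y ∈ R ∧ t Y • C = Y)
    (hS : ∀ Y₁ ∈ S, ∀ Y₂ ∈ S, ∀ τ ∈ R, τ • Y₁ ∈ S → τ • Y₂ ∈ S →
        τ • Y₂ = Y₁ ∨ τ • Y₂ = τ • Y₁ ∨ τ • Y₂ = Y₂) (h4 : 3 < S.card) {b c : ℤ}
    (hb : ∀ a : A, a ^ b = 1 → a = 1) (hc : ∀ a : A, a ^ c = 1 → a = 1) {x y : H} (hx : x ∈ R)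
    (hy : y ∈ R) (h : Rel b c (∏ Y ∈ S, t Y • w₀) x y) : x ∈ Cz C ∧ y ∈ Cz C := by
  classical
  have n : ∀ (g : H) (Y : Subgroup H), g⁻¹ • Y ∈ S → cmp S (fun Y => t Y • w₀) g Y ≠ 1 :=
    fun g Y e => by rw [cmp, if_pos e]; exact smul_ne_one (smul_ne_one h0)
  have n' : ∀ (g : H) (Y : Subgroup H), g⁻¹ • Y ∉ S → cmp S (fun Y => t Y • w₀) g Y = 1 :=
    fun g Y e => by rw [cmp, if_neg e]
  have eqv : ∀ a ∈ R, ∀ a' ∈ R, a⁻¹ * a' ∈ Cz C → ∀ Y ∈ S, a' • Y = a • Y := by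
    intro a ha a' ha' e Y hY
    have := (s.fix_iff hC h0 hw (R.mul_mem (R.inv_mem ha) ha') (ht Y hY).1).2 e
    rwa [(ht Y hY).2, mul_smul, inv_smul_eq_iff] at this
  have zC : ∀ u ∈ zpowers z, u ∈ Cz C := fun u hu => Cz_anti hC (s.leC hu)
  have sqC : ∀ a ∈ R, a * a ∈ Cz C := fun a ha => zC _ (pow_two a ▸ s.pow a ha)
  have c1 : ∀ Y ∈ S, x⁻¹ • Y ∈ S ∨ y⁻¹ • Y ∈ S := fun Y hY => by
    have := s.rel hC h0 hw ht hx hy (ht Y hY).1 h
    rw [(ht Y hY).2] at this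
    by_contra e
    push Not at e
    rw [n' _ _ e.1, n' _ _ e.2, one_zpow, one_zpow, mul_one, mul_one] at this
    exact n 1 Y (by simpa using hY) this
  have c2 : ∀ Y ∈ S, x⁻¹ • Y ∈ S ∨ (y⁻¹ * x) • Y ∈ S := fun Y hY => by
    have := s.rel hC h0 hw ht hx hy (R.mul_mem hx (ht Y hY).1) h
    rw [mul_smul, (ht Y hY).2] at this
    by_contra e
    push Not at e
    rw [n' 1 _ (by
      rw [inv_one, one_smul, eqv _ (R.inv_mem hx) _ hx (by simpa using sqC x hx) Y hY]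
      exact e.1), n' y _ (by rw [← mul_smul]; exact e.2), one_zpow, one_mul, mul_one] at this
    exact n x _ (by simpa using hY) (hb _ this)
  have c3 : ∀ Y ∈ S, y⁻¹ • Y ∈ S ∨ (y⁻¹ * x) • Y ∈ S := fun Y hY => by
    have := s.rel hC h0 hw ht hx hy (R.mul_mem hy (ht Y hY).1) h
    rw [mul_smul, (ht Y hY).2] at this
    by_contra e
    push Not at e
    rw [n' 1 _ (by
      rw [inv_one, one_smul, eqv _ (R.inv_mem hy) _ hy (by simpa using sqC y hy) Y hY]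
      exact e.1), n' x _ (by
      rw [← mul_smul, eqv _ (R.mul_mem (R.inv_mem hy) hx) _ (R.mul_mem (R.inv_mem hx) hy) (by
        simpa using sqC _ (R.mul_mem (R.inv_mem hx) hy)) Y hY]
      exact e.2), one_zpow, one_mul, one_mul] at this
    exact n y _ (by simpa using hY) (hc _ this)
  have sid : ∀ τ ∈ R, τ ∉ Cz C → (S.filter fun Y => τ • Y ∈ S).card ≤ 2 := by
    intro τ hτ hn
    rcases (S.filter fun Y => τ • Y ∈ S).eq_empty_or_nonempty with e | ⟨Y₁, h₁⟩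
    · simp [e]
    refine (Finset.card_le_card (t := {τ⁻¹ • Y₁, Y₁}) fun Y₂ h₂ => ?_).trans Finset.card_le_two
    rw [Finset.mem_filter] at h₁ h₂
    rw [Finset.mem_insert, Finset.mem_singleton]
    rcases hS _ h₁.1 _ h₂.1 τ hτ h₁.2 h₂.2 with e | e | e
    · exact Or.inl (eq_inv_smul_iff.2 e)
    · exact Or.inr (smul_left_cancel _ e)
    · exact absurd ((s.fix_iff hC h0 hw hτ (ht _ h₂.1).1).1 (by rwa [(ht _ h₂.1).2])) hn
  have one : ∀ τ ∈ R, (∀ Y ∈ S, τ • Y ∈ S) → τ ∈ Cz C := fun τ hτ e => by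
    by_contra hn
    have := sid τ hτ hn
    rw [Finset.filter_true_of_mem e] at this
    omega
  have hyx := R.mul_mem (R.inv_mem hy) hx
  by_cases h1 : x ∈ Cz C
  · refine ⟨h1, inv_mem_iff.1 (one _ (R.inv_mem hy) fun Y hY => (c3 Y hY).elim id fun e => ?_)⟩
    rwa [eqv _ (R.inv_mem hy) _ hyx (by simpa using h1) Y hY] at e
  exfalso
  have h2 : y ∉ Cz C := fun h2 => h1 (inv_mem_iff.1 (one _ (R.inv_mem hx) fun Y hY =>
    (c2 Y hY).elim id fun e => by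
      rwa [eqv _ (R.inv_mem hx) _ hyx (by
        have := mul_mem (mul_mem (zC _ (s.cm hx (R.inv_mem hy))) (inv_mem h2)) (sqC x hx)
        simpa [commutatorElement_def, mul_assoc] using this) Y hY] at e))
  have h3 : y⁻¹ * x ∉ Cz C := fun h3 => h1 (inv_mem_iff.1 (one _ (R.inv_mem hx) fun Y hY =>
    (c1 Y hY).elim id fun e => by
      rwa [eqv _ (R.inv_mem hx) _ (R.inv_mem hy) (by
        have := mul_mem (zC _ (s.cm hx (R.inv_mem hy))) h3
        simpa [commutatorElement_def, mul_assoc] using this) Y hY] at e))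
  have d1 := sid _ (R.inv_mem hx) (by simpa using h1)
  have d2 := sid _ (R.inv_mem hy) (by simpa using h2)
  have d3 := sid _ hyx h3
  have d4 := Finset.card_union_add_card_inter (S.filter fun Y => y⁻¹ • Y ∈ S)
    (S.filter fun Y => (y⁻¹ * x) • Y ∈ S)
  have d5 : S.card ≤ ((S.filter fun Y => y⁻¹ • Y ∈ S) ∪
      S.filter fun Y => (y⁻¹ * x) • Y ∈ S).card := Finset.card_le_card fun Y hY => by
    simpa [hY] using c3 Y hY
  have d6 : S.card ≤ ((S.filter fun Y => x⁻¹ • Y ∈ S) ∪ ((S.filter fun Y => y⁻¹ • Y ∈ S) ∩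
      S.filter fun Y => (y⁻¹ * x) • Y ∈ S)).card := Finset.card_le_card fun Y hY => by
    have := c1 Y hY
    have := c2 Y hY
    simp only [Finset.mem_union, Finset.mem_inter, Finset.mem_filter, hY, true_and]
    tauto
  have d7 := d6.trans (Finset.card_union_le _ _)
  omega

variable {T : Type v} [Group T] [NAS T] {φ : H →* T} [Nontrivial A]

theorem Sy.quat [hR : R.Normal] (s : Sy A R z 2) {b c : ℤ} (hb : ∀ a : A, a ^ b = 1 → a = 1)
    (hc : ∀ a : A, a ^ c = 1 → a = 1) (hbc : ∀ a : A, a ^ (1 + b ^ 2 + c ^ 2) = 1) {i j : H}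
    (hi : i ∈ R) (hj : j ∈ R) (hii : i * i = z) (hjj : j * j = z) (hij : ¬ Commute i j) :
    ∃ w : A, Full φ (stabilizer H w) → ∃ K, Full φ K ∧ K ≤ Cz (zpowers i) := by
  classical
  let Q : Subgroup H := R ⊓ centralizer {i, j}
  have hQ : ∀ q, q ∈ Q ↔ q ∈ R ∧ Commute q i ∧ Commute q j := fun q => by
    simp only [Q, mem_inf, mem_centralizer_iff, Set.mem_insert_iff, Set.mem_singleton_iff,
      forall_eq_or_imp, forall_eq]
    exact and_congr_right fun _ => and_congr eq_comm eq_comm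
  obtain ⟨C, hC⟩ := exists_MS (A := A) Q
  obtain ⟨v, hv1, hv⟩ := hC.ex
  have hCR : C ≤ R := hC.le.trans inf_le_left
  have hiC : i ∈ Cz C := mem_Cz.2 fun k hk => ((hQ k).1 (hC.le hk)).2.1
  have hjC : j ∈ Cz C := mem_Cz.2 fun k hk => ((hQ k).1 (hC.le hk)).2.2
  obtain ⟨b, c, hb, hc, w₀, hw, h0, hr⟩ := s.exists_rel hb hc hbc hi hj hii hjj hij (U := Fx A C)
    (fun a ha => (nz_of_le_Cz le_rfl).smul_mem_Fx hiC ha)
    (fun a ha => (nz_of_le_Cz le_rfl).smul_mem_Fx hjC ha) hv hv1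
  obtain ⟨S, t, a1, a2, a3, a4, a5⟩ := s.supp hCR h0 hw (Q := Q) (D := ⊥) inf_le_left (by
    rintro k ⟨hk, hk'⟩
    refine s.fpf w₀ h0 k (hCR hk) (mem_Cz.2 fun g hg => ?_) (hw hk)
    obtain ⟨q, hq, h1, h2⟩ := s.dec hi hj hij hg
    have h3 : q ∈ R ∧ Commute q k := by
      have := (hQ k).1 (hC.le hk)
      rcases hq with rfl | rfl | rfl | rfl
      exacts [⟨R.one_mem, Commute.one_left k⟩, ⟨hi, this.2.1.symm⟩, ⟨hj, this.2.2.symm⟩,
        ⟨R.mul_mem hi hj, this.2.1.symm.mul_left this.2.2.symm⟩]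
    have h4 : Commute (q⁻¹ * g) k := mem_Cz.1 hk' _
      ((hQ _).2 ⟨R.mul_mem (R.inv_mem h3.1) hg, h1, h2⟩)
    simpa using (h3.2.mul_left h4).eq) (nz_normal _ _)
  have a3' : ∀ Y ∈ S, t Y ∈ R ∧ t Y • C = Y := fun Y hY => ⟨(a3 Y hY).1.1, (a3 Y hY).2⟩
  have han : ∀ g ∈ R ⊓ Cz C, Commute g i → Commute g j → g * g = 1 →
      ∃ ω ∈ zpowers z, g * ω ∈ C := by
    intro g hg h1 h2 h3
    obtain ⟨a, ha, ha1, h4 | ⟨n, h4⟩⟩ := exists_fixed (A := A) (U := Fx A C) (s.zc hg.1) s.pr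
      (by rw [pow_two, h3]) s.ord s.tor (fun h => h0 (mem_bot.1 (h ▸ hw)))
      (fun a ha => (nz_of_le_Cz le_rfl).smul_mem_Fx hg.2 ha)
      (fun a ha => (nz_of_le_Cz le_rfl).smul_mem_Fx (Cz_anti hCR s.cen) ha)
    · exact absurd (s.one ha1 (mem_zpowers z) h4) s.ne
    · exact ⟨_, pow_mem (mem_zpowers z) n, hC.max a ha1 ha ⟨Q.mul_mem ((hQ g).2 ⟨hg.1, h1, h2⟩)
        (Q.pow_mem ((hQ z).2 ⟨s.mem, (s.zc hi).symm, (s.zc hj).symm⟩) n), h4⟩⟩
  have hz : ∀ W : Subgroup H, W ≤ Cz (zpowers z) := fun W => le_Cz_comm.1 (zpowers_le.2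
    (mem_Cz.2 fun k _ => mul_inv_eq_iff_eq_mul.1 (s.hz hi hii k)))
  by_cases h4 : 3 < S.card
  · refine ⟨∏ Y ∈ S, t Y • w₀, fun hf => s.fin hii hjj hij (B := zpowers z)
      (G₀ := R ⊓ Cz C ⊓ centralizer (t '' S)) hf (inf_le_left.trans inf_le_left)
      ⟨⟨hi, hiC⟩, ?_⟩ ⟨⟨hj, hjC⟩, ?_⟩ (zpowers_le.2 ⟨⟨s.mem, Cz_anti hCR s.cen⟩, ?_⟩)
      (s.leC.trans (Cz_anti (inf_le_left.trans inf_le_left))) (hz _) (fun g hg h1 h2 h3 => ?_)
      fun h hh => ?_⟩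
    · rintro _ ⟨Y, hY, rfl⟩
      exact ((hQ _).1 (a3 Y hY).1).2.1
    · rintro _ ⟨Y, hY, rfl⟩
      exact ((hQ _).1 (a3 Y hY).1).2.2
    · rintro _ ⟨Y, hY, rfl⟩
      exact s.zc (a3' Y hY).1
    · obtain ⟨ω, h5, h6⟩ := han g hg.1 h1 h2 h3
      have h7 := a4 _ fun Y hY => by
        rw [← (a3 Y hY).2, s.mem_smul_iff hCR h0 hw (a3' Y hY).1 h6]
        exact Commute.mul_right (hg.2 _ ⟨Y, hY, rfl⟩) (mem_Cz.1 (s.leC h5) _ (a3' Y hY).1)
      rw [eq_inv_of_mul_eq_one_left (mem_bot.1 h7)]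
      exact inv_mem h5
    have b1 : Rel b c (∏ Y ∈ S, t Y • w₀) i j := by
      rw [Rel, Finset.smul_prod', Finset.smul_prod', ← Finset.prod_zpow, ← Finset.prod_zpow,
        ← Finset.prod_mul_distrib, ← Finset.prod_mul_distrib]
      refine Finset.prod_eq_one fun Y hY => ?_
      have := hr.smul (t Y)
      rwa [((hQ _).1 (a3 Y hY).1).2.1.eq, ((hQ _).1 (a3 Y hY).1).2.2.eq, mul_inv_cancel_right,
        mul_inv_cancel_right] at this
    have b2 := b1.smul h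
    rw [show h • _ = _ from hh] at b2
    have hx := hR.conj_mem i hi h
    have hy := hR.conj_mem j hj h
    generalize h * i * h⁻¹ = x at *
    generalize h * j * h⁻¹ = y at *
    obtain ⟨b3, b4⟩ := s.sidon hCR h0 hw a3' a5 h4 hb hc hx hy b2
    have b5 : ∀ Y ∈ S, Rel b c (t Y • w₀) x y := fun Y hY => by
      have e1 := (s.fix_iff hCR h0 hw (R.inv_mem hx) (a3' Y hY).1).2 (inv_mem b3)
      have e2 := (s.fix_iff hCR h0 hw (R.inv_mem hy) (a3' Y hY).1).2 (inv_mem b4)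
      have := s.rel hCR h0 hw a3' hx hy (a3' Y hY).1 b2
      rw [(a3 Y hY).2] at e1 e2 this
      rwa [cmp, cmp, cmp, e1, e2, inv_one, one_smul, if_pos hY, if_pos hY, if_pos hY,
        one_smul] at this
    have b6 : ∀ Y ∈ S, Commute (t Y)⁻¹ x ∧ Commute (t Y)⁻¹ y := fun Y hY =>
      s.rigid hb hc h0 hx hy (R.inv_mem (a3' Y hY).1) (by simpa [a2] using b5 C a1)
        (by simpa using (b5 Y hY).smul (t Y)⁻¹)
    exact ⟨⟨⟨hx, b3⟩, by rintro _ ⟨Y, hY, rfl⟩; exact Commute.inv_left_iff.1 (b6 Y hY).1⟩,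
      ⟨hy, b4⟩, by rintro _ ⟨Y, hY, rfl⟩; exact Commute.inv_left_iff.1 (b6 Y hY).2⟩
  refine ⟨w₀, fun hf => ?_⟩
  have b1 : R ⊓ stabilizer H w₀ = C := le_antisymm (fun d hd => hC.max w₀ h0 hw ⟨(hQ d).2
    ⟨hd.1, s.rigid hb hc h0 hi hj hd.1 hr (by
      have := hr.smul d
      rwa [show d • w₀ = w₀ from hd.2] at this)⟩, hd.2⟩) (le_inf hCR hw)
  have b2 : Nat.card C ≤ 4 := by
    refine (Nat.card_le_card_of_injective (β := S.erase C → Bool)
      (fun (k : C) Y => decide ((k : H) ∈ Y.1)) fun k k' e => ?_).trans ?_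
    · refine Subtype.ext (inv_mul_eq_one.1 (mem_bot.1 (a4 _ fun Y hY => ?_)))
      have m := C.mul_mem (C.inv_mem k.2) k'.2
      by_cases e1 : Y = C
      · rwa [e1]
      have e2 := decide_eq_decide.1 (congrFun e ⟨Y, Finset.mem_erase.2 ⟨e1, hY⟩⟩)
      dsimp only at e2
      rw [← (a3 Y hY).2] at e2 ⊢
      rw [s.mem_smul_iff hCR h0 hw (a3' Y hY).1 k.2,
        s.mem_smul_iff hCR h0 hw (a3' Y hY).1 k'.2] at e2
      rw [s.mem_smul_iff hCR h0 hw (a3' Y hY).1 m]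
      by_cases e3 : Commute (t Y) k
      · exact e3.inv_right.mul_right (e2.1 e3)
      · exact (s.anti (R.inv_mem (hCR k.2)) (hCR k'.2) (a3' Y hY).1
          (fun e => e3 (Commute.inv_left_iff.1 e).symm) fun e => e3 (e2.2 e.symm)).symm
    · rw [Nat.card_fun, Nat.card_eq_fintype_card, Fintype.card_bool, Nat.card_eq_fintype_card,
        Fintype.card_coe, Finset.card_erase_of_mem a1]
      exact Nat.pow_le_pow_right two_pos (show _ ≤ 2 by omega)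
  have b3 := cz_small hf (D := C) (b1 ▸ (nz_normal _ R).inf (nz_self _))
    ((Set.toFinite (C : Set H)).toFinset.erase 1) (by
      rw [Finset.card_erase_of_mem (by simp), ← Set.ncard_eq_toFinset_card]
      exact Nat.sub_le_of_le_add b2) fun d hd hd1 => by simp [hd, hd1]
  refine s.fin hii hjj hij (B := zpowers z ⊔ C) (G₀ := R ⊓ Cz C) b3 inf_le_left ⟨hi, hiC⟩ ⟨hj, hjC⟩
    (sup_le (zpowers_le.2 ⟨s.mem, Cz_anti hCR s.cen⟩) (le_inf hCR (s.ab hCR h0 hw)))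
    (sup_le (s.leC.trans (Cz_anti inf_le_left)) (le_Cz_comm.1 inf_le_right))
    (le_Cz_comm.1 (sup_le (le_Cz_comm.1 (hz _)) (le_Cz_comm.1 inf_le_right)))
    (fun g hg h1 h2 h3 => ?_) fun h hh => ?_
  · obtain ⟨ω, h5, h6⟩ := han g hg h1 h2 h3
    exact (Subgroup.mul_mem_cancel_right _ (mem_sup_left h5)).1 (mem_sup_right h6)
  · exact ⟨⟨hR.conj_mem i hi h, nz_self (Cz C) h hh.2 i hiC⟩,
      hR.conj_mem j hj h, nz_self (Cz C) h hh.2 j hjC⟩

end Pool.Agent.P.MP_870b40_al.TP
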