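import Pool.Agent.P.MP_870b40_al.AffB

/-! Groups of symplectic type: vectors supported on an affinely independent family. -/

namespace Pool.Agent.P.MP_870b40_al.TP

open Subgroup MulAction
open scoped commutatorElement

universe u w

variable {H : Type u} [Group H] {A : Type w} [CommGroup A] [MulDistribMulAction H A]

variable (A) in
/-- a group of symplectic type whose centre has no fixed vectors -/
structure Sy (R : Subgroup H) (z : H) (r : ℕ) : Prop where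
  pr : r.Prime
  tor : ∀ a : A, a ^ r = 1 → a = 1
  mem : z ∈ R
  cen : z ∈ Cz R
  ne : z ≠ 1
  ord : z ^ r = 1
  com : ⁅R, R⁆ ≤ zpowers z
  pow : ∀ y ∈ R, y ^ r ∈ zpowers z
  fpf : ∀ a : A, a ≠ 1 → ∀ c ∈ R, c ∈ Cz R → c • a = a → c = 1

variable {R : Subgroup H} {z : H} {r : ℕ}

theorem Sy.le (s : Sy A R z r) : zpowers z ≤ R := zpowers_le.2 s.mem

theorem Sy.leC (s : Sy A R z r) : zpowers z ≤ Cz R := zpowers_le.2 s.cen

theorem Sy.cm (s : Sy A R z r) {x y : H} (hx : x ∈ R) (hy : y ∈ R) : ⁅x, y⁆ ∈ zpowers z :=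
  s.com (commutator_mem_commutator hx hy)

theorem Sy.one (s : Sy A R z r) {a : A} (ha : a ≠ 1) {c : H} (hc : c ∈ zpowers z)
    (h : c • a = a) : c = 1 := s.fpf a ha c (s.le hc) (s.leC hc) h

theorem Sy.cml (s : Sy A R z r) {a b x : H} (ha : a ∈ R) (hb : b ∈ R) (hx : x ∈ R) :
    ⁅a * b, x⁆ = ⁅b, x⁆ * ⁅a, x⁆ := by
  rw [commutatorElement_mul_left_eq_conj_mul, mem_Cz.1 (s.leC (s.cm hb hx)) a ha,
    mul_inv_cancel_right]

theorem Sy.cpl (s : Sy A R z r) {a x : H} (ha : a ∈ R) (hx : x ∈ R) (n : ℕ) :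
    ⁅a ^ n, x⁆ = ⁅a, x⁆ ^ n :=
  comm_pow_left (Commute.symm (mem_Cz.1 (s.leC (s.cm ha hx)) a ha)) n

theorem Sy.gen (s : Sy A R z r) {u u' : H} (hu : u ∈ zpowers z) (h1 : u ≠ 1)
    (hu' : u' ∈ zpowers z) : ∃ n : ℕ, u ^ n = u' := by
  have := Fact.mk s.pr
  obtain ⟨n, hn⟩ := mem_powers_of_prime_card (G := zpowers z) (p := r)
    (by rw [Nat.card_zpowers, orderOf_eq_prime s.ord s.ne]) (g := ⟨u, hu⟩) (g' := ⟨u', hu'⟩)
    fun e => h1 (congrArg Subtype.val e)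
  exact ⟨n, congrArg Subtype.val hn⟩

/-- adjust `y` so that it commutes with `x` -/
theorem Sy.adj (s : Sy A R z r) {x y₀ y : H} (hx : x ∈ R) (h0 : y₀ ∈ R) (hy : y ∈ R)
    (h : ⁅y₀, x⁆ ≠ 1) : ∃ n : ℕ, ⁅y * y₀ ^ n, x⁆ = 1 := by
  obtain ⟨n, hn⟩ := s.gen (s.cm h0 hx) h (inv_mem (s.cm hy hx))
  exact ⟨n, by rw [s.cml hy (R.pow_mem h0 n) hx, s.cpl h0 hx, hn, inv_mul_cancel]⟩

variable {C : Subgroup H} {w₀ : A}

theorem Sy.mem_smul_iff (s : Sy A R z r) (hC : C ≤ R) (h0 : w₀ ≠ 1) (hw : C ≤ stabilizer H w₀)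
    {τ c : H} (hτ : τ ∈ R) (hc : c ∈ C) : c ∈ τ • C ↔ Commute τ c := by
  rw [mem_smul]
  refine ⟨fun h => ?_, fun h => by rwa [mul_assoc, ← h.eq, inv_mul_cancel_left]⟩
  have h1 : ⁅τ⁻¹, c⁆ ∈ C := by
    simpa [commutatorElement_def] using C.mul_mem h (C.inv_mem hc)
  have h2 := s.one h0 (s.cm (R.inv_mem hτ) (hC hc)) (hw h1)
  exact Commute.inv_left_iff.1 (commutatorElement_eq_one_iff_commute.1 h2)

theorem Sy.ab (s : Sy A R z r) (hC : C ≤ R) (h0 : w₀ ≠ 1) (hw : C ≤ stabilizer H w₀) :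
    C ≤ Cz C := fun c hc => mem_Cz.2 fun k hk =>
  ((s.mem_smul_iff hC h0 hw (hC hk) hc).1 (by rwa [(nz_self C).smul_eq hk])).eq

theorem Sy.fix_iff (s : Sy A R z r) (hC : C ≤ R) (h0 : w₀ ≠ 1) (hw : C ≤ stabilizer H w₀)
    {τ g : H} (hτ : τ ∈ R) (hg : g ∈ R) : τ • g • C = g • C ↔ τ ∈ Cz C := by
  have e : τ • g • C = g • τ • C := by
    have h1 : ⁅τ⁻¹, g⁻¹⁆ • C = C := (nz_of_le_Cz (s.leC.trans (Cz_anti hC))).smul_eq
      (s.cm (R.inv_mem hτ) (R.inv_mem hg))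
    rw [← mul_smul, ← mul_smul, show τ * g = g * τ * ⁅τ⁻¹, g⁻¹⁆ by
      rw [commutatorElement_def]; group, mul_smul, h1]
  rw [e, smul_left_cancel_iff]
  refine ⟨fun h => mem_Cz.2 fun c hc => ((s.mem_smul_iff hC h0 hw hτ hc).1 (by rwa [h])).symm.eq,
    fun h => (nz_of_le_Cz le_rfl).smul_eq h⟩

theorem Sy.conj (_s : Sy A R z r) (hC : C ≤ R) (h0 : w₀ ≠ 1) (hw : C ≤ stabilizer H w₀) {g : H}
    (hg : g ∈ R) : g • C ≤ R ∧ g • w₀ ≠ 1 ∧ g • C ≤ stabilizer H (g • w₀) :=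
  ⟨(smul_mono hC).trans ((nz_self R).smul_eq hg).le, smul_ne_one h0,
    by rw [← smul_stab]; exact smul_mono hw⟩

open Classical in
/-- the component of `g • w` at `Y` -/
noncomputable def cmp (S : Finset (Subgroup H)) (a : Subgroup H → A) (g : H) (Y : Subgroup H) :
    A := if g⁻¹ • Y ∈ S then g • a (g⁻¹ • Y) else 1

variable [Finite H]

theorem Sy.rel (s : Sy A R z r) (hC : C ≤ R) (h0 : w₀ ≠ 1) (hw : C ≤ stabilizer H w₀)
    {S : Finset (Subgroup H)} {t : Subgroup H → H} (ht : ∀ Y ∈ S, t Y ∈ R ∧ t Y • C = Y)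
    {g₁ g₂ g : H} (h₁ : g₁ ∈ R) (h₂ : g₂ ∈ R) (hg : g ∈ R) {b c : ℤ}
    (h : (∏ Y ∈ S, t Y • w₀) * (g₁ • ∏ Y ∈ S, t Y • w₀) ^ b * (g₂ • ∏ Y ∈ S, t Y • w₀) ^ c = 1) :
    cmp S (fun Y => t Y • w₀) 1 (g • C) * cmp S (fun Y => t Y • w₀) g₁ (g • C) ^ b *
      cmp S (fun Y => t Y • w₀) g₂ (g • C) ^ c = 1 := by
  classical
  obtain ⟨a1, a2, a3⟩ := s.conj hC h0 hw hg
  have hz : ∀ y ∈ g • C, y ^ r = 1 := fun y hy =>
    s.one a2 (s.pow y (a1 hy)) (a3 ((g • C).pow_mem hy r))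
  have other : ∀ k ∈ R, k • C ≠ g • C → tr (g • C) (k • w₀) = 1 := by
    intro k hk hne
    by_contra h1
    have h2 : ¬ k * g⁻¹ ∈ Cz C := fun e => hne (by
      rw [← (s.fix_iff hC h0 hw (R.mul_mem hk (R.inv_mem hg)) hg).2 e, ← mul_smul,
        inv_mul_cancel_right])
    obtain ⟨c, hc, h3⟩ : ∃ c ∈ C, c * (k * g⁻¹) ≠ k * g⁻¹ * c := by
      by_contra h3
      push Not at h3
      exact h2 (mem_Cz.2 h3)
    have b1 : g * c * g⁻¹ ∈ g • C := smul_mem_smul.2 hc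
    have b2 : k * c * k⁻¹ ∈ k • C := smul_mem_smul.2 hc
    have b3 : k * c * k⁻¹ = ⁅k * g⁻¹, g * c * g⁻¹⁆ * (g * c * g⁻¹) := by
      rw [commutatorElement_def]; group
    have b4 := s.cm (R.mul_mem hk (R.inv_mem hg)) (a1 b1)
    have b5 : (k * c * k⁻¹) • g • C = g • C := by
      rw [b3, mul_smul, (nz_self _).smul_eq b1]
      exact (nz_of_le_Cz (s.leC.trans (Cz_anti a1))).smul_eq b4
    have b6 : (k * c * k⁻¹) • tr (g • C) (k • w₀) = tr (g • C) (k • w₀) := by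
      rw [← tr_smul, b5, show (k * c * k⁻¹) • k • w₀ = k • w₀ from (s.conj hC h0 hw hk).2.2 b2]
    rw [b3, mul_smul, smul_tr b1] at b6
    have b7 := s.one h1 b4 b6
    have b8 : g * c * g⁻¹ = ⁅g, c⁆ * c := by rw [commutatorElement_def]; group
    rw [commutatorElement_eq_one_iff_commute, b8] at b7
    have b9 : Commute (k * g⁻¹) ⁅g, c⁆ :=
      mem_Cz.1 (s.leC (s.cm hg (hC hc))) _ (R.mul_mem hk (R.inv_mem hg))
    have b10 := (b9.inv_right.mul_right b7).symm.eq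
    rw [inv_mul_cancel_left] at b10
    exact h3 b10
  have key : ∀ k ∈ R, cmp S (fun Y => t Y • w₀) k (g • C) ∈ Fx A (g • C) ∧
      tr (g • C) (k • ∏ Y ∈ S, t Y • w₀) = tr (g • C) (cmp S (fun Y => t Y • w₀) k (g • C)) := by
    intro k hk
    have b1 : ∀ Y ∈ S, Y ≠ k⁻¹ • g • C → tr (g • C) (k • t Y • w₀) = 1 := fun Y hY hne => by
      rw [← mul_smul]
      refine other _ (R.mul_mem hk (ht Y hY).1) fun e => hne ?_
      rw [← e, mul_smul, (ht Y hY).2, inv_smul_smul]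
    rw [Finset.smul_prod', map_prod, cmp]
    split_ifs with h3
    · refine ⟨?_, Finset.prod_eq_single_of_mem _ h3 b1⟩
      have := (smul_mem_Fx (g := k * t (k⁻¹ • g • C))).2 (show w₀ ∈ Fx A C from hw)
      rwa [mul_smul, (ht _ h3).2, smul_inv_smul, mul_smul] at this
    · exact ⟨one_mem _, by
        rw [map_one]; exact Finset.prod_eq_one fun Y hY => b1 Y hY fun e => h3 (e ▸ hY)⟩
  by_contra hcon
  refine tr_ne_one s.pr hz s.tor hcon (mul_mem (mul_mem (key 1 R.one_mem).1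
    (zpow_mem (key _ h₁).1 b)) (zpow_mem (key _ h₂).1 c) : _ ∈ Fx A (g • C)) ?_
  have h4 := congrArg (tr (g • C)) h
  rw [map_mul, map_mul, map_zpow, map_zpow, map_one] at h4
  rw [map_mul, map_mul, map_zpow, map_zpow, ← (key 1 R.one_mem).2, ← (key _ h₁).2,
    ← (key _ h₂).2, one_smul, h4]

theorem Sy.supp (s : Sy A R z r) (hC : C ≤ R) (h0 : w₀ ≠ 1) (hw : C ≤ stabilizer H w₀)
    {Q D : Subgroup H} (hQ : Q ≤ R) (hD : C ⊓ Cz Q ≤ D) (hQD : Nz Q D) :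
    ∃ (S : Finset (Subgroup H)) (t : Subgroup H → H), C ∈ S ∧ t C = 1 ∧
      (∀ Y ∈ S, t Y ∈ Q ∧ t Y • C = Y) ∧ (∀ c, (∀ Y ∈ S, c ∈ Y) → c ∈ D) ∧
      ∀ Y₁ ∈ S, ∀ Y₂ ∈ S, ∀ τ ∈ R, τ • Y₁ ∈ S → τ • Y₂ ∈ S →
        τ • Y₂ = Y₁ ∨ τ • Y₂ = τ • Y₁ ∨ τ • Y₂ = Y₂ := by
  classical
  let P : Finset (Subgroup H) → Prop := fun S => S.Nonempty ∧ (∀ Y ∈ S, ∃ q ∈ Q, q • C = Y) ∧
    ∀ c, (∀ Y ∈ S, c ∈ Y) → c ∈ D
  obtain ⟨S₀, ⟨⟨Y₀, hY₀⟩, a1, a2⟩, hm⟩ := exists_minimalFor_of_wellFoundedLT P Finset.card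
    ⟨(Set.toFinite {Y | ∃ q ∈ Q, q • C = Y}).toFinset, ⟨C, by
      simpa using ⟨1, Q.one_mem, one_smul _ _⟩⟩, by simp, fun c hc => by
      have h1 : c ∈ C := hc C (by simpa using ⟨1, Q.one_mem, one_smul _ _⟩)
      exact hD ⟨h1, mem_Cz.2 fun q hq => ((s.mem_smul_iff hC h0 hw (hQ hq) h1).1
        (hc _ (by simpa using ⟨q, hq, rfl⟩))).eq⟩⟩
  obtain ⟨q₀, hq₀, rfl⟩ := a1 Y₀ hY₀
  set S := S₀.image fun Y => q₀⁻¹ • Y with hS
  have b1 : ∀ Y ∈ S, ∃ q ∈ Q, q • C = Y := by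
    intro Y hY
    obtain ⟨Y', hY', rfl⟩ := Finset.mem_image.1 hY
    obtain ⟨q, hq, rfl⟩ := a1 Y' hY'
    exact ⟨q₀⁻¹ * q, Q.mul_mem (Q.inv_mem hq₀) hq, mul_smul _ _ _⟩
  have b2 : ∀ c, (∀ Y ∈ S, c ∈ Y) → c ∈ D := fun c hc => by
    have := hQD _ (Q.inv_mem hq₀) _ (a2 (q₀ * c * q₀⁻¹) fun Y hY => by
      simpa using mem_smul.1 (hc _ (Finset.mem_image_of_mem _ hY)))
    simpa [mul_assoc] using this
  choose! t ht1 ht2 using b1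
  refine ⟨S, fun Y => if Y = C then 1 else t Y,
    Finset.mem_image.2 ⟨_, hY₀, inv_smul_smul _ _⟩, if_pos rfl, fun Y hY => ?_, b2,
    fun Y₁ h₁ Y₂ h₂ τ hτ h₃ h₄ => ?_⟩
  · dsimp only
    split_ifs with h
    · exact ⟨Q.one_mem, by rw [one_smul, h]⟩
    · exact ⟨ht1 Y hY, ht2 Y hY⟩
  by_contra hcon
  push Not at hcon
  have m : ∀ Y ∈ S, τ • Y₂ ≠ Y → Y ∈ S.erase (τ • Y₂) := fun Y hY hne =>
    Finset.mem_erase.2 ⟨hne.symm, hY⟩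
  have c1 : (S.erase (τ • Y₂)).card < S₀.card :=
    (Finset.card_erase_lt_of_mem h₄).trans_le Finset.card_image_le
  refine c1.not_ge (hm ⟨⟨Y₁, m _ h₁ hcon.1⟩, fun Y hY => ⟨_, ht1 Y (Finset.mem_of_mem_erase hY),
    ht2 Y (Finset.mem_of_mem_erase hY)⟩, fun c hc => b2 c fun Y hY => ?_⟩ c1.le)
  by_cases e : τ • Y₂ = Y
  swap
  · exact hc Y (m Y hY e)
  obtain ⟨d1, d2, d3⟩ := s.conj hC h0 hw (hQ (ht1 _ h₁))
  rw [ht2 _ h₁] at d1 d3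
  have d4 := (s.mem_smul_iff d1 d2 d3 hτ (hc _ (m _ h₁ hcon.1))).1 (hc _ (m _ h₃ hcon.2.1))
  rw [← e, mem_smul, mul_assoc, ← d4.eq, inv_mul_cancel_left]
  exact hc _ (m _ h₂ hcon.2.2)

theorem exists_MS' {B Y₀ : Subgroup H} (h1 : Y₀ ≤ B) {a₀ : A} (h0 : a₀ ≠ 1)
    (h2 : Y₀ ≤ stabilizer H a₀) : ∃ Y, Y₀ ≤ Y ∧ MS A B Y := by
  obtain ⟨Y, ⟨a0, a1, a2⟩, hY⟩ := wellFounded_gt.has_min
    {Y : Subgroup H | Y₀ ≤ Y ∧ Y ≤ B ∧ ∃ a : A, a ≠ 1 ∧ Y ≤ stabilizer H a}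
      ⟨Y₀, le_rfl, h1, a₀, h0, h2⟩
  refine ⟨Y, a0, a1, a2, fun a ha h3 => ?_⟩
  by_contra h4
  exact hY (B ⊓ stabilizer H a) ⟨a0.trans (le_inf a1 h3), inf_le_left, a, ha, inf_le_right⟩
    (lt_of_le_not_ge (le_inf a1 h3) h4)

/-- a vector that encodes an element with a fixed vector -/
theorem Sy.enc (s : Sy A R z r) {x : H} (hx : x ∈ R) {a₀ : A} (h0 : a₀ ≠ 1) (hxa : x • a₀ = a₀) :
    ∃ w : A, x • w = w ∧ (R ⊓ stabilizer H w ≤ zpowers x ∨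
      ∃ F : Finset H, F.card ≤ 3 ∧ ∀ d ∈ R ⊓ stabilizer H w, d ≠ 1 → d ∈ F) := by
  classical
  obtain ⟨C, hxC, hC⟩ := exists_MS' (zpowers_le.2 hx) h0 (zpowers_le.2 hxa)
  replace hxC : x ∈ C := zpowers_le.1 hxC
  obtain ⟨w₀, h1, h2⟩ := hC.ex
  have hq : ∀ q ∈ R, q ∈ R ⊓ Cz (zpowers x) ↔ Commute q x := fun q hq =>
    ⟨fun h => (mem_Cz.1 h.2 x (mem_zpowers x)).symm, fun h => ⟨hq, mem_Cz.2 (by
      rintro _ ⟨n, rfl⟩
      exact (h.symm.zpow_left n).eq)⟩⟩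
  obtain ⟨S, t, a1, a2, a3, a4, a5⟩ := s.supp hC.le h1 h2 (Q := R ⊓ Cz (zpowers x))
    (D := zpowers x) inf_le_left (by
      rintro c ⟨hc, hc'⟩
      have hcR := hC.le hc
      by_cases h3 : ∀ y ∈ R, ⁅y, x⁆ = 1
      · rw [s.fpf w₀ h1 c hcR (mem_Cz.2 fun y hy => mem_Cz.1 hc' y
          ((hq y hy).2 (commutatorElement_eq_one_iff_commute.1 (h3 y hy)))) (h2 hc)]
        exact one_mem _
      push Not at h3
      obtain ⟨y₀, hy₀, h3⟩ := h3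
      obtain ⟨n, hn⟩ := s.adj hy₀ hx hcR fun e => h3 (by
        rw [← commutatorElement_inv, e, inv_one])
      have h4 : c * x ^ n ∈ C := C.mul_mem hc (C.pow_mem hxC n)
      have h5 := s.fpf w₀ h1 _ (hC.le h4) (mem_Cz.2 fun y hy => by
        obtain ⟨m, hm⟩ := s.adj hx hy₀ hy h3
        have c1 := commutatorElement_eq_one_iff_commute.1 hm
        have c2 : Commute (y * y₀ ^ m) c := mem_Cz.1 hc' _
          ((hq _ (R.mul_mem hy (R.pow_mem hy₀ m))).2 c1)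
        have c3 := ((commutatorElement_eq_one_iff_commute.1 hn).symm.pow_left m).inv_left
        simpa using ((c2.mul_right (c1.pow_right n)).mul_left c3).eq) (h2 h4)
      rw [eq_inv_of_mul_eq_one_left h5]
      exact inv_mem (pow_mem (mem_zpowers x) n))
    (nz_of_le_Cz inf_le_right)
  have b1 : ∀ Y ∈ S, x • t Y • w₀ = t Y • w₀ := fun Y hY => by
    rw [← mul_smul, ← ((hq _ (a3 Y hY).1.1).1 (a3 Y hY).1).eq, mul_smul,
      show x • w₀ = w₀ from h2 hxC]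
  have b2 : ∀ d ∈ R ⊓ stabilizer H (∏ Y ∈ S, t Y • w₀), ∀ Y ∈ S, d⁻¹ • Y ∈ S ∧
      t Y • w₀ = d • t (d⁻¹ • Y) • w₀ := by
    intro d hd Y hY
    have := s.rel hC.le h1 h2 (fun Y hY => ⟨(a3 Y hY).1.1, (a3 Y hY).2⟩) hd.1 hd.1 (a3 Y hY).1.1
      (b := -1) (c := 0) (by rw [show d • _ = _ from hd.2]; simp)
    rw [(a3 Y hY).2, cmp, cmp, inv_one, one_smul, if_pos hY, one_smul, zpow_zero, mul_one,
      zpow_neg_one, mul_inv_eq_one] at this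
    split_ifs at this with h
    · exact ⟨h, this⟩
    · exact absurd this (smul_ne_one h1)
  by_cases hm : ∀ d ∈ R ⊓ stabilizer H (∏ Y ∈ S, t Y • w₀), d ∈ Cz C
  · refine ⟨_, by rw [Finset.smul_prod', Finset.prod_congr rfl b1], Or.inl fun d hd =>
      a4 d fun Y hY => ?_⟩
    have c1 := (s.fix_iff hC.le h1 h2 (R.inv_mem hd.1) (a3 Y hY).1.1).2 (inv_mem (hm d hd))
    have c2 := (b2 d hd Y hY).2
    rw [(a3 Y hY).2] at c1
    rw [c1] at c2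
    have c3 := hC.smul (t Y)
    rw [(nz_self R).smul_eq (a3 Y hY).1.1] at c3
    rw [← (a3 Y hY).2]
    exact c3.max _ (smul_ne_one h1) (s.conj hC.le h1 h2 (a3 Y hY).1.1).2.2 ⟨hd.1, c2.symm⟩
  push Not at hm
  obtain ⟨d, hd, hdC⟩ := hm
  have hτ := R.inv_mem hd.1
  have c0 : ∀ g ∈ R, d⁻¹ • g • C ≠ g • C := fun g hg e =>
    hdC (inv_mem_iff.1 ((s.fix_iff hC.le h1 h2 hτ hg).1 e))
  have c1 := (b2 d hd C a1).1
  have c2 : d⁻¹ • d⁻¹ • C = C := by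
    rcases a5 C a1 _ c1 _ hτ c1 (b2 d hd _ c1).1 with h | h | h
    · exact h
    · exact absurd h (c0 _ hτ)
    · exact absurd h (c0 _ hτ)
  have c3 : r = 2 := by
    by_contra h
    obtain ⟨k, hk⟩ := s.pr.odd_of_ne_two h
    have e1 : d⁻¹ ^ 2 ∈ stabilizer H C := by rw [mem_stabilizer_iff, pow_two, mul_smul, c2]
    have e2 : d⁻¹ ^ r ∈ stabilizer H C :=
      (nz_of_le_Cz (s.leC.trans (Cz_anti hC.le))).smul_eq (s.pow _ hτ)
    rw [hk, pow_succ, pow_mul, Subgroup.mul_mem_cancel_left _ (pow_mem e1 k)] at e2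
    exact c0 1 R.one_mem (by rw [one_smul]; exact e2)
  subst c3
  have c4 : ∀ c ∈ C, ⁅c, d⁻¹⁆ = 1 → c = 1 ∨ c = x := fun c hc e => by
    have e1 : c ∈ zpowers x := a4 c fun Y hY => by
      have e2 := (s.mem_smul_iff hC.le h1 h2 hτ hc).2
        (commutatorElement_eq_one_iff_commute.1 e).symm
      rcases a5 C a1 Y hY _ hτ c1 (b2 d hd _ hY).1 with h | h | h
      · rwa [smul_left_cancel _ (h.trans c2.symm)]
      · rwa [smul_left_cancel _ h]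
      · exact absurd (by rwa [(a3 Y hY).2]) (c0 _ (a3 Y hY).1.1)
    have e3 : x ^ 2 = 1 := s.one h1 (s.pow x hx) (h2 (C.pow_mem hxC 2))
    obtain ⟨n, rfl⟩ := mem_powers_iff_mem_zpowers.2 e1
    rcases Nat.even_or_odd' n with ⟨k, rfl | rfl⟩
    · left; simp only [pow_mul, e3, one_pow]
    · right; simp only [pow_succ _ (2 * k), pow_mul, e3, one_pow, one_mul]
  obtain ⟨c₀, hc₀, c5⟩ : ∃ c ∈ C, ⁅c, d⁻¹⁆ ≠ 1 := by
    by_contra h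
    push Not at h
    exact hdC (inv_mem_iff.1 (mem_Cz.2 fun c hc =>
      commutatorElement_eq_one_iff_mul_comm.1 (h c hc)))
  refine ⟨w₀, h2 hxC, Or.inr ⟨{x, c₀⁻¹, x * c₀⁻¹}, Finset.card_le_three, fun c hc hc1 => ?_⟩⟩
  replace hc := hC.max w₀ h1 h2 hc
  obtain ⟨n, hn⟩ := s.adj hτ (hC.le hc₀) (hC.le hc) c5
  have e3 : c₀ ^ 2 = 1 := s.one h1 (s.pow _ (hC.le hc₀)) (h2 (C.pow_mem hc₀ 2))
  have e4 := c4 _ (C.mul_mem hc (C.pow_mem hc₀ n)) hn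
  simp only [Finset.mem_insert, Finset.mem_singleton]
  rcases Nat.even_or_odd' n with ⟨k, rfl | rfl⟩
  · simp only [pow_mul, e3, one_pow, mul_one] at e4
    exact Or.inl (e4.resolve_left hc1)
  · simp only [pow_succ _ (2 * k), pow_mul, e3, one_pow, one_mul] at e4
    exact Or.inr (e4.imp eq_inv_of_mul_eq_one_left eq_mul_inv_of_mul_eq)

end Pool.Agent.P.MP_870b40_al.TP
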