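import Pool.Agent.P.MP_870b40_al.CF.AffN

/-! Two conjugates: the induction hypothesis and its consequences. -/

namespace Pool.Agent.P.MP_870b40_al.TP

open Subgroup MulAction Pool.Agent.P.MP_870b40_al.CF
open scoped commutatorElement

universe u v

variable {G : Type u} [Group G] {T : Type v} [Group T]

/-- two conjugates suffice, inside `L` -/
def P2 (φ : G →* T) (L : Subgroup G) : Prop :=
  ∀ H, H ≤ L → (∀ K, K ≤ H → Nz L K → ¬ Full φ K) → ∃ g ∈ L, ¬ Full φ (H ⊓ g • H)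

theorem P2.pp {φ : G →* T} {L : Subgroup G} (h : P2 φ L) : PP φ L := fun H h1 h2 => by
  obtain ⟨g, hg, h3⟩ := h H h1 h2
  exact ⟨g, hg, g, hg, fun hf => h3 (hf.mono inf_le_left)⟩

theorem P2.of_subtype {φ : G →* T} {L : Subgroup G} (h : P2 (φ.comp L.subtype) ⊤) : P2 φ L := by
  intro H hH hK
  obtain ⟨g, -, h1⟩ := h (H.subgroupOf L) le_top (by
    intro K hKH hKz hKf
    refine hK (K.map L.subtype) ?_ ?_ ((full_map _ _).2 hKf)
    · rintro _ ⟨k, hk, rfl⟩
      exact hKH hk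
    · rintro l hl _ ⟨k, hk, rfl⟩
      exact ⟨_, hKz ⟨l, hl⟩ (mem_top _) k hk, rfl⟩)
  refine ⟨g, g.2, fun hf => h1 ((full_map _ _).1 (hf.mono ?_))⟩
  rintro x ⟨hx, hx1⟩
  exact ⟨⟨x, hH hx⟩, ⟨hx, mem_smul.2 (mem_smul.1 hx1 :)⟩, rfl⟩

/-- the induction hypothesis -/
def IH3 (n : ℕ) (T : Type v) [Group T] : Prop :=
  ∀ (Γ : Type u) [Group Γ] [Finite Γ] (ψ : Γ →* T), Sch2 ψ → Nat.card Γ ≤ n → P2 ψ ⊤

theorem IH3.sub {n : ℕ} (h : IH3.{u} n T) [Finite G] {φ : G →* T} (L : Subgroup G)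
    (hφ : Sch2 (φ.comp L.subtype)) (hL : Nat.card L ≤ n) : P2 φ L :=
  P2.of_subtype (h L _ hφ hL)

theorem exists_two {φ : G →* T} {X : Type*} [MulAction G X] {E : Subgroup G} (hE : Res φ E ⊤)
    (hP : P2 φ ⊤) {y : X} {e : G} (he : e ∈ E) (hey : e • y ≠ y) :
    ∃ g : G, ¬ Full φ (stabilizer G y ⊓ stabilizer G (g • y)) := by
  obtain ⟨g, -, h⟩ := hP (stabilizer G y) le_top fun K hK hK1 hK2 =>
    hey (hK (hE.min K le_top hK2 (hK1.mono le_top) he))
  refine ⟨g, fun hf => h (hf.mono fun x hx => ⟨hx.1, mem_smul.2 ?_⟩)⟩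
  change (g⁻¹ * x * g) • y = y
  rw [mul_smul, mul_smul, show x • g • y = g • y from hx.2, inv_smul_smul]

variable [NAS T] [Finite G]

/-- the linear form of the induction hypothesis -/
theorem lin {ψ : G →* T} (hIH : IH3.{u} (Nat.card G) T) (hS : Sch2 ψ) {M : Subgroup G}
    [hM : M.Normal] (hab : M ≤ Cz M) (hk : M ≤ ψ.ker) (hC : ¬ Full ψ (Cz M)) :
    ∃ m ∈ M, ¬ Full ψ (Cz (zpowers m)) := by
  let π : G →* G ⧸ M := QuotientGroup.mk' M
  have hπ : Function.Surjective π := QuotientGroup.mk'_surjective M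
  let χ : G ⧸ M →* T := QuotientGroup.lift M ψ hk
  have hχ : χ.comp π = ψ := QuotientGroup.lift_comp_mk' _ _ _
  let α : G ⧸ M →* MulAut M := QuotientGroup.lift M MulAut.conjNormal fun m hm =>
    MulEquiv.ext fun a => Subtype.ext (by
      change m * a * m⁻¹ = a
      rw [← mem_Cz.1 (hab hm) a a.2, mul_inv_cancel_right])
  have hα : ∀ (g : G) (a : M), ((α (π g) a : M) : G) = g * a * g⁻¹ := fun g a => rfl
  have : Finite (M ⋊[α] (G ⧸ M)) := Finite.of_equiv _ SemidirectProduct.equivProd.symm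
  obtain ⟨g, -, h⟩ := hIH (M ⋊[α] (G ⧸ M)) (χ.comp SemidirectProduct.rightHom)
    ((Sch2.push π hπ (hχ ▸ hS)).pull _ (by
      rw [← SemidirectProduct.range_inl_eq_ker_rightHom]
      rintro _ ⟨a, rfl⟩
      rw [mem_Cz]
      rintro _ ⟨b, rfl⟩
      rw [← map_mul, ← map_mul]
      exact congrArg _ (Subtype.ext (mem_Cz.1 (hab a.2) b b.2))) fun D _ => by
      rw [MonoidHom.range_eq_top.2 SemidirectProduct.rightHom_surjective]
      exact le_top)
    (by rw [SemidirectProduct.card, mul_comm, ← card_eq_card_quotient_mul_card_subgroup])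
    SemidirectProduct.inr.range le_top (by
      intro K hK hz hf
      refine hC (full_iff.2 fun t => ?_)
      obtain ⟨k, hk', rfl⟩ := full_iff.1 hf t
      obtain ⟨q, rfl⟩ := hK hk'
      obtain ⟨g, rfl⟩ := hπ q
      refine ⟨g, mem_Cz.2 fun a ha => ?_, rfl⟩
      obtain ⟨q', h1⟩ := hK (hz (SemidirectProduct.inl ⟨a, ha⟩) (mem_top _) _ hk')
      have h2 := congrArg (fun x => ((SemidirectProduct.left x : M) : G)) h1
      have h3 : (1 : G) = a * (g * (a⁻¹ * g⁻¹)) := by simpa [hα] using h2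
      calc a * g = a * (g * (a⁻¹ * g⁻¹)) * (g * a) := by group
        _ = g * a := by rw [← h3, one_mul])
  refine ⟨g.left, g.left.2, fun hf => h (full_iff.2 fun t => ?_)⟩
  obtain ⟨k, hk', rfl⟩ := full_iff.1 hf t
  refine ⟨SemidirectProduct.inr (π k), ⟨⟨_, rfl⟩, mem_smul.2 ⟨g.right⁻¹ * π k * g.right, ?_⟩⟩, rfl⟩
  have h1 : α (π k) g.left = g.left := Subtype.ext (by
    rw [hα, ← mem_Cz.1 hk' _ (mem_zpowers _), mul_inv_cancel_right])
  ext
  · simp [h1]
  · simp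

end Pool.Agent.P.MP_870b40_al.TP
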